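import Pool.Agent.W2helper28.AIM.Tower

/-!
Loops with abelian inner mapping group: nilpotent implies class at most three.
-/

set_option autoImplicit false

namespace Pool.Agent.W2helper28.AIM

open Subgroup
open scoped commutatorElement

/-- a loop, given by its operations -/
structure LoopData (Q : Type*) where
  mul : Q → Q → Q
  e : Q
  ldiv : Q → Q → Q
  rdiv : Q → Q → Q
  one_mul : ∀ x, mul e x = x
  mul_one : ∀ x, mul x e = x
  mul_ldiv : ∀ a b, mul a (ldiv a b) = b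
  ldiv_mul : ∀ a b, ldiv a (mul a b) = b
  rdiv_mul : ∀ a b, mul (rdiv b a) a = b
  mul_rdiv : ∀ a b, rdiv (mul b a) a = b

namespace LoopData

variable {Q : Type*} (D : LoopData Q)

/-- left translation -/
def lp (a : Q) : Equiv.Perm Q where
  toFun := D.mul a
  invFun := D.ldiv a
  left_inv := D.ldiv_mul a
  right_inv := D.mul_ldiv a

/-- right translation -/
def rp (a : Q) : Equiv.Perm Q where
  toFun := fun z => D.mul z a
  invFun := fun z => D.rdiv z a
  left_inv := fun z => D.mul_rdiv a z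
  right_inv := fun z => D.rdiv_mul a z

/-- multiplication group -/
def M : Subgroup (Equiv.Perm Q) := closure (Set.range D.lp ∪ Set.range D.rp)

/-- left translation in the multiplication group -/
def L (a : Q) : D.M := ⟨D.lp a, subset_closure (Or.inl ⟨a, rfl⟩)⟩
/-- right translation in the multiplication group -/
def R (a : Q) : D.M := ⟨D.rp a, subset_closure (Or.inr ⟨a, rfl⟩)⟩

/-- the standard generators of the inner mapping group -/
def gens : Set D.M := {x | ∃ a, x = (D.R a)⁻¹ * D.L a} ∪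
      {x | ∃ a b, x = (D.L (D.mul a b))⁻¹ * (D.L a * D.L b)} ∪
      {x | ∃ a b, x = (D.R (D.mul a b))⁻¹ * (D.R b * D.R a)}

/-- inner mapping group -/
def H : Subgroup D.M := closure D.gens

lemma ka (a : Q) : (D.R a)⁻¹ * D.L a ∈ D.H := subset_closure (Or.inl (Or.inl ⟨a, rfl⟩))
lemma th (a b : Q) : (D.L (D.mul a b))⁻¹ * (D.L a * D.L b) ∈ D.H :=
  subset_closure (Or.inl (Or.inr ⟨a, b, rfl⟩))
lemma rh (a b : Q) : (D.R (D.mul a b))⁻¹ * (D.R b * D.R a) ∈ D.H :=
  subset_closure (Or.inr ⟨a, b, rfl⟩)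

lemma L_apply (a z : Q) : (D.L a : Equiv.Perm Q) z = D.mul a z := rfl
lemma R_apply (a z : Q) : (D.R a : Equiv.Perm Q) z = D.mul z a := rfl
lemma L_inv_apply (a z : Q) : ((D.L a : Equiv.Perm Q)⁻¹) z = D.ldiv a z := rfl
lemma R_inv_apply (a z : Q) : ((D.R a : Equiv.Perm Q)⁻¹) z = D.rdiv z a := rfl

lemma covL (x a : Q) : ∃ b, (D.L b)⁻¹ * (D.L x * D.L a) ∈ D.H := ⟨_, D.th x a⟩

lemma covR (x a : Q) : ∃ b, (D.L b)⁻¹ * (D.R x * D.L a) ∈ D.H := by
  refine ⟨D.mul a x, ?_⟩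
  have e : (D.L (D.mul a x))⁻¹ * (D.R x * D.L a) = ((D.R (D.mul a x))⁻¹ * D.L (D.mul a x))⁻¹ *
      ((D.R (D.mul a x))⁻¹ * (D.R x * D.R a)) * ((D.R a)⁻¹ * D.L a) := by group
  rw [e]
  exact mul_mem (mul_mem (inv_mem (D.ka _)) (D.rh _ _)) (D.ka _)

lemma covL' (x a : Q) : ∃ b, (D.L b)⁻¹ * ((D.L x)⁻¹ * D.L a) ∈ D.H := by
  refine ⟨D.ldiv x a, ?_⟩
  have h := D.th x (D.ldiv x a)
  rw [D.mul_ldiv] at h
  have e : (D.L (D.ldiv x a))⁻¹ * ((D.L x)⁻¹ * D.L a) =
      ((D.L a)⁻¹ * (D.L x * D.L (D.ldiv x a)))⁻¹ := by group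
  rw [e]
  exact inv_mem h

lemma covR' (x a : Q) : ∃ b, (D.L b)⁻¹ * ((D.R x)⁻¹ * D.L a) ∈ D.H := by
  refine ⟨D.rdiv a x, ?_⟩
  have h := D.rh (D.rdiv a x) x
  rw [D.rdiv_mul] at h
  have e : (D.L (D.rdiv a x))⁻¹ * ((D.R x)⁻¹ * D.L a) =
      ((D.R (D.rdiv a x))⁻¹ * D.L (D.rdiv a x))⁻¹ *
      ((D.R a)⁻¹ * (D.R x * D.R (D.rdiv a x)))⁻¹ * ((D.R a)⁻¹ * D.L a) := by group
  rw [e]
  exact mul_mem (mul_mem (inv_mem (D.ka _)) (inv_mem h)) (D.ka _)

lemma cov (g : D.M) : ∃ a, (D.L a)⁻¹ * g ∈ D.H := by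
  obtain ⟨g, hg⟩ := g
  -- left multiplication by generators and their inverses
  have key : ∀ x ∈ closure (Set.range D.lp ∪ Set.range D.rp), ∀ (hx : x ∈ D.M) (a : Q),
      ∃ b, (D.L b)⁻¹ * ((⟨x, hx⟩ : D.M) * D.L a) ∈ D.H := by
    intro x hx
    induction hx using Subgroup.closure_induction'' with
    | one =>
      intro hx a
      refine ⟨a, ?_⟩
      have e : (D.L a)⁻¹ * ((⟨1, hx⟩ : D.M) * D.L a) = 1 := by
        have : (⟨1, hx⟩ : D.M) = 1 := rfl
        rw [this]; group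
      rw [e]; exact one_mem _
    | mem x hx =>
      intro hx' a
      rcases hx with ⟨y, rfl⟩ | ⟨y, rfl⟩
      · exact D.covL y a
      · exact D.covR y a
    | inv_mem x hx =>
      intro hx' a
      rcases hx with ⟨y, rfl⟩ | ⟨y, rfl⟩
      · exact D.covL' y a
      · exact D.covR' y a
    | mul x y hx hy ihx ihy =>
      intro hxy a
      obtain ⟨b, hb⟩ := ihy hy a
      obtain ⟨c, hc⟩ := ihx hx b
      refine ⟨c, ?_⟩
      have e : (D.L c)⁻¹ * ((⟨x * y, hxy⟩ : D.M) * D.L a) =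
          ((D.L c)⁻¹ * ((⟨x, hx⟩ : D.M) * D.L b)) * ((D.L b)⁻¹ * ((⟨y, hy⟩ : D.M) * D.L a)) := by
        have : (⟨x * y, hxy⟩ : D.M) = (⟨x, hx⟩ : D.M) * (⟨y, hy⟩ : D.M) := rfl
        rw [this]; group
      rw [e]
      exact mul_mem hc hb
  obtain ⟨b, hb⟩ := key g hg hg D.e
  refine ⟨b, ?_⟩
  have hL : D.L D.e = 1 := by
    apply Subtype.ext
    apply Equiv.ext
    intro z
    exact D.one_mul z
  rw [hL, _root_.mul_one] at hb
  exact hb

/-- `H` fixes the identity element -/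
lemma H_fix {x : D.M} (hx : x ∈ D.H) : (x : Equiv.Perm Q) D.e = D.e := by
  induction hx using Subgroup.closure_induction with
  | mem x hx =>
    rcases hx with (⟨a, rfl⟩ | ⟨a, b, rfl⟩) | ⟨a, b, rfl⟩
    · show D.rdiv (D.mul a D.e) a = D.e
      rw [D.mul_one]
      have := D.mul_rdiv a D.e
      rwa [D.one_mul] at this
    · show D.ldiv (D.mul a b) (D.mul a (D.mul b D.e)) = D.e
      rw [D.mul_one]
      have := D.ldiv_mul (D.mul a b) D.e
      rwa [D.mul_one] at this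
    · show D.rdiv (D.mul (D.mul D.e a) b) (D.mul a b) = D.e
      rw [D.one_mul]
      have := D.mul_rdiv (D.mul a b) D.e
      rwa [D.one_mul] at this
  | one => rfl
  | mul x y _ _ hx hy =>
    show (x : Equiv.Perm Q) ((y : Equiv.Perm Q) D.e) = D.e
    rw [hy, hx]
  | inv x _ hx =>
    show ((x : Equiv.Perm Q)⁻¹) D.e = D.e
    rw [Equiv.Perm.inv_eq_iff_eq, hx]

/-- hypothesis: the standard generators commute -/
def AbInn : Prop := ∀ x ∈ D.gens, ∀ y ∈ D.gens, x * y = y * x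

lemma hc (h : D.AbInn) : ∀ a ∈ D.H, ∀ b ∈ D.H, a * b = b * a := by
  intro a ha b hb
  have h1 : D.H ≤ centralizer (D.gens) := by
    rw [H, closure_le]
    intro x hx
    rw [SetLike.mem_coe, mem_centralizer_iff]
    intro y hy
    exact h y hy x hx
  have h2 : D.H ≤ centralizer (D.H : Set D.M) := by
    conv_lhs => rw [H]
    rw [closure_le]
    intro x hx
    rw [SetLike.mem_coe, mem_centralizer_iff]
    intro y hy
    exact (mem_centralizer_iff.1 (h1 hy) x hx).symm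
  exact mem_centralizer_iff.1 (h2 hb) a ha

/-- the configuration of a loop -/
def pre (h : D.AbInn) : Pre D.M Q where
  mul := D.mul
  L := D.L
  R := D.R
  H := D.H
  hc := D.hc h
  cov := D.cov
  th := D.th
  rh := D.rh
  ka := D.ka
  gen := le_rfl
  P0 := by
    intro m hm
    apply Subtype.ext
    apply Equiv.ext
    intro x
    have h1 := D.H_fix (hm (D.L x))
    have h2 : D.ldiv x ((m : Equiv.Perm Q) (D.mul x D.e)) = D.e := h1
    rw [D.mul_one] at h2
    have h3 := D.mul_ldiv x ((m : Equiv.Perm Q) x)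
    rw [h2, D.mul_one] at h3
    exact h3.symm

/-- comparison of cosets through the images of the identity element -/
lemma coset {S : Subgroup D.M} (hS : D.H ≤ S) (g g' : D.M) :
    (D.L ((g : Equiv.Perm Q) D.e))⁻¹ * D.L ((g' : Equiv.Perm Q) D.e) ∈ S ↔ g⁻¹ * g' ∈ S := by
  have key : ∀ g : D.M, (D.L ((g : Equiv.Perm Q) D.e))⁻¹ * g ∈ S := by
    intro g
    obtain ⟨a, ha⟩ := D.cov g
    have h1 := D.H_fix ha
    have h2 : D.ldiv a ((g : Equiv.Perm Q) D.e) = D.e := h1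
    have h3 := D.mul_ldiv a ((g : Equiv.Perm Q) D.e)
    rw [h2, D.mul_one] at h3
    rw [← h3]
    exact hS ha
  constructor
  · intro h
    have e : g⁻¹ * g' = ((D.L ((g : Equiv.Perm Q) D.e))⁻¹ * g)⁻¹ *
        ((D.L ((g : Equiv.Perm Q) D.e))⁻¹ * D.L ((g' : Equiv.Perm Q) D.e)) *
        ((D.L ((g' : Equiv.Perm Q) D.e))⁻¹ * g') := by group
    rw [e]
    exact mul_mem (mul_mem (inv_mem (key g)) h) (key g')
  · intro h
    have e : (D.L ((g : Equiv.Perm Q) D.e))⁻¹ * D.L ((g' : Equiv.Perm Q) D.e) =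
        ((D.L ((g : Equiv.Perm Q) D.e))⁻¹ * g) * (g⁻¹ * g') *
        ((D.L ((g' : Equiv.Perm Q) D.e))⁻¹ * g')⁻¹ := by group
    rw [e]
    exact mul_mem (mul_mem (key g) h) (inv_mem (key g'))

/-- the relation of differing by right multiplication by an element of `A` -/
lemma rel {S : Subgroup D.M} (hS : D.H ≤ S) {A : Set Q} (hA : ∀ a, a ∈ A ↔ D.L a ∈ S)
    (x y : Q) : (∃ n ∈ A, x = D.mul y n) ↔ (D.L y)⁻¹ * D.L x ∈ S := by
  constructor
  · rintro ⟨n, hn, rfl⟩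
    have e : (D.L y)⁻¹ * D.L (D.mul y n) =
        D.L n * ((D.L (D.mul y n))⁻¹ * (D.L y * D.L n))⁻¹ := by group
    rw [e]
    exact mul_mem ((hA n).1 hn) (inv_mem (hS (D.th _ _)))
  · intro h
    refine ⟨D.ldiv y x, (hA _).2 ?_, (D.mul_ldiv y x).symm⟩
    have h1 := D.th y (D.ldiv y x)
    rw [D.mul_ldiv] at h1
    have e : D.L (D.ldiv y x) = ((D.L y)⁻¹ * D.L x) *
        ((D.L x)⁻¹ * (D.L y * D.L (D.ldiv y x))) := by group
    rw [e]
    exact mul_mem h (hS h1)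

/-- the upper central series condition -/
def ucs (A : Set Q) : Set Q := {a | ∀ x y,
            (∃ n ∈ A, D.mul x a = D.mul (D.mul a x) n) ∧
            (∃ n ∈ A, D.mul a (D.mul x y) = D.mul (D.mul (D.mul a x) y) n) ∧
            (∃ n ∈ A, D.mul x (D.mul a y) = D.mul (D.mul (D.mul x a) y) n) ∧
            (∃ n ∈ A, D.mul x (D.mul y a) = D.mul (D.mul (D.mul x y) a) n)}

/-- one step of the comparison of the upper central series with the tower -/
lemma ucs_step (h : D.AbInn) (n : ℕ) {A : Set Q}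
    (hA : ∀ a, a ∈ A ↔ D.L a ∈ (D.pre h).K n ⊔ D.H) (a : Q) :
    a ∈ D.ucs A ↔ D.L a ∈ (D.pre h).K (n + 1) ⊔ D.H := by
  have hP := (D.pre h).K_PP n
  have hS : D.H ≤ (D.pre h).K n ⊔ D.H := le_sup_right
  have hrel := fun x y => D.rel hS hA x y
  have hcos := fun g g' => D.coset hS g g'
  have pLL : ∀ x y, ((D.L x * D.L y : D.M) : Equiv.Perm Q) D.e = D.mul x y := by
    intro x y
    show D.mul x (D.mul y D.e) = D.mul x y
    rw [D.mul_one]
  have pRL : ∀ x y, ((D.R x * D.L y : D.M) : Equiv.Perm Q) D.e = D.mul y x := by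
    intro x y
    show D.mul (D.mul y D.e) x = D.mul y x
    rw [D.mul_one]
  have pLLL : ∀ x y z, ((D.L x * (D.L y * D.L z) : D.M) : Equiv.Perm Q) D.e =
      D.mul x (D.mul y z) := by
    intro x y z
    show D.mul x (D.mul y (D.mul z D.e)) = _
    rw [D.mul_one]
  have pRRL : ∀ x y z, ((D.R x * (D.R y * D.L z) : D.M) : Equiv.Perm Q) D.e =
      D.mul (D.mul z y) x := by
    intro x y z
    show D.mul (D.mul (D.mul z D.e) y) x = _
    rw [D.mul_one]
  have pLRL : ∀ x y z, ((D.L x * (D.R y * D.L z) : D.M) : Equiv.Perm Q) D.e =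
      D.mul x (D.mul z y) := by
    intro x y z
    show D.mul x (D.mul (D.mul z D.e) y) = _
    rw [D.mul_one]
  have pRLL : ∀ x y z, ((D.R x * (D.L y * D.L z) : D.M) : Equiv.Perm Q) D.e =
      D.mul (D.mul y z) x := by
    intro x y z
    show D.mul (D.mul y (D.mul z D.e)) x = _
    rw [D.mul_one]
  constructor
  · intro ha
    apply mem_sup_left
    apply (D.pre h).cen_le n
    apply (D.pre h).FIX hP
    have hsub : D.H ≤ ((D.pre h).K n ⊔ D.H).comap (MulAut.conj (D.L a)⁻¹).toMonoidHom := by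
      conv_lhs => rw [H]
      rw [closure_le]
      rintro f ((⟨x, rfl⟩ | ⟨x, y, rfl⟩) | ⟨x, y, rfl⟩)
      · have h1 := (hrel _ _).1 (ha x x).1
        rw [← pRL x a, ← pLL x a, hcos] at h1
        show (D.L a)⁻¹ * ((D.R x)⁻¹ * D.L x) * ((D.L a)⁻¹)⁻¹ ∈ (D.pre h).K n ⊔ D.H
        have e : (D.L a)⁻¹ * ((D.R x)⁻¹ * D.L x) * ((D.L a)⁻¹)⁻¹ =
          (D.R x * D.L a)⁻¹ * (D.L x * D.L a) := by group
        rw [e]; exact h1
      · have h1 := (hrel _ _).1 (ha x y).2.2.2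
        rw [← pLL (D.mul x y) a, ← pLLL x y a, hcos] at h1
        show (D.L a)⁻¹ * ((D.L (D.mul x y))⁻¹ * (D.L x * D.L y)) * ((D.L a)⁻¹)⁻¹ ∈
          (D.pre h).K n ⊔ D.H
        have e : (D.L a)⁻¹ * ((D.L (D.mul x y))⁻¹ * (D.L x * D.L y)) * ((D.L a)⁻¹)⁻¹ =
          (D.L (D.mul x y) * D.L a)⁻¹ * (D.L x * (D.L y * D.L a)) := by group
        rw [e]; exact h1
      · have h1 := (hrel _ _).1 (ha x y).2.1
        rw [← pRRL y x a, ← pRL (D.mul x y) a, hcos] at h1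
        show (D.L a)⁻¹ * ((D.R (D.mul x y))⁻¹ * (D.R y * D.R x)) * ((D.L a)⁻¹)⁻¹ ∈
          (D.pre h).K n ⊔ D.H
        have e : (D.L a)⁻¹ * ((D.R (D.mul x y))⁻¹ * (D.R y * D.R x)) * ((D.L a)⁻¹)⁻¹ =
          ((D.R y * (D.R x * D.L a))⁻¹ * (D.R (D.mul x y) * D.L a))⁻¹ := by group
        rw [e]; exact inv_mem h1
    intro f hf
    have h1 := hsub hf
    have h2 : (D.L a)⁻¹ * f * ((D.L a)⁻¹)⁻¹ ∈ (D.pre h).K n ⊔ D.H := h1
    rw [inv_inv] at h2
    exact h2
  · intro ha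
    have ha1 : D.L a ∈ cen ((D.pre h).K n) ⊔ D.H :=
      (sup_le ((D.pre h).K_succ_le n) le_sup_right : (D.pre h).K (n + 1) ⊔ D.H ≤ _) ha
    have hL : D.L a ∈ cen ((D.pre h).K n) := (D.pre h).CL hP ha1
    have hR : D.R a ∈ cen ((D.pre h).K n) := (D.pre h).CR hP ha1
    have hKn : ((D.pre h).K n).Normal := inferInstance
    -- conjugates of commutators with central elements
    have com : ∀ (c : D.M), c ∈ cen ((D.pre h).K n) → ∀ g z : D.M,
        z⁻¹ * (g⁻¹ * c⁻¹ * g * c) * z ∈ (D.pre h).K n := by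
      intro c hc g z
      have e : z⁻¹ * (g⁻¹ * c⁻¹ * g * c) * z = z⁻¹ * (⁅c⁻¹, g⁻¹⁆)⁻¹ * (z⁻¹)⁻¹ := by
        simp only [commutatorElement_def]; group
      rw [e]
      exact hKn.conj_mem _ (inv_mem (inv_mem hc _)) _
    intro x y
    refine ⟨?_, ?_, ?_, ?_⟩
    · rw [hrel, ← pLL a x, ← pLL x a, hcos]
      apply mem_sup_left
      have := com _ hL (D.L x) 1
      have e : (D.L a * D.L x)⁻¹ * (D.L x * D.L a) =
        1⁻¹ * ((D.L x)⁻¹ * (D.L a)⁻¹ * D.L x * D.L a) * 1 := by group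
      rw [e]; exact this
    · rw [hrel, ← pRLL y a x, ← pLRL a y x, hcos]
      apply mem_sup_left
      have h4 : ⁅(D.L a)⁻¹, (D.R y)⁻¹⁆ ∈ (D.pre h).K n := inv_mem hL _
      have h5 := hKn.conj_mem _ h4 (D.L x)⁻¹
      have e6 : (D.R y * (D.L a * D.L x))⁻¹ * (D.L a * (D.R y * D.L x)) =
        (D.L x)⁻¹ * ⁅(D.L a)⁻¹, (D.R y)⁻¹⁆ * ((D.L x)⁻¹)⁻¹ := by
        simp only [commutatorElement_def]; group
      rw [e6]; exact h5
    · rw [hrel, ← pRLL y x a, ← pLRL x y a, hcos]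
      set m := (D.R y * D.L x)⁻¹ * (D.L x * D.R y) with hm
      have hmH : m ∈ D.H := (D.pre h).mH x y
      have e : (D.R y * (D.L x * D.L a))⁻¹ * (D.L x * (D.R y * D.L a)) =
        m * (1⁻¹ * (m⁻¹ * (D.L a)⁻¹ * m * D.L a) * 1) := by
        rw [hm]; group
      rw [e]
      exact mul_mem (mem_sup_right hmH) (mem_sup_left (com _ hL m 1))
    · rw [hrel, ← pRLL a x y, ← pLRL x a y, hcos]
      apply mem_sup_left
      have h5 := com _ hR (D.L x) (D.L y)
      have e6 : (D.R a * (D.L x * D.L y))⁻¹ * (D.L x * (D.R a * D.L y)) =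
        (D.L y)⁻¹ * ((D.L x)⁻¹ * (D.R a)⁻¹ * D.L x * D.R a) * D.L y := by group
      rw [e6]; exact h5

/-- nilpotent loops with abelian inner mapping group have class at most three -/
theorem class_le_three (h : D.AbInn) (Z : ℕ → Set Q) (hZ0 : Z 0 = {D.e})
    (hZ : ∀ k, Z (k + 1) = D.ucs (Z k)) (hn : ∃ n, Z n = Set.univ) : Z 3 = Set.univ := by
  have key : ∀ n a, a ∈ Z n ↔ D.L a ∈ (D.pre h).K n ⊔ D.H := by
    intro n
    induction n with
    | zero =>
      intro a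
      rw [hZ0, Pre.K_zero, bot_sup_eq, Set.mem_singleton_iff]
      constructor
      · rintro rfl
        have hL : D.L D.e = 1 := by
          apply Subtype.ext
          apply Equiv.ext
          intro z
          exact D.one_mul z
        rw [hL]; exact one_mem _
      · intro ha
        have h1 := D.H_fix ha
        have h2 : D.mul a D.e = D.e := h1
        rwa [D.mul_one] at h2
    | succ n ih =>
      intro a
      rw [hZ]
      exact D.ucs_step h n ih a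
  obtain ⟨n, hn⟩ := hn
  have hLtop : ∀ a, D.L a ∈ (D.pre h).K n ⊔ D.H := by
    intro a
    rw [← key, hn]; trivial
  have htop : (D.pre h).K n ⊔ D.H = ⊤ := by
    rw [eq_top_iff]
    intro g _
    obtain ⟨a, ha⟩ := D.cov g
    have e : g = D.L a * ((D.L a)⁻¹ * g) := by group
    rw [e]
    exact mul_mem (hLtop a) (mem_sup_right ha)
  have hK : (D.pre h).K (n + 1) = ⊤ := by
    rw [Pre.K_succ]
    have h1 : cen ((D.pre h).K n) ⊔ (D.pre h).H = ⊤ := by
      rw [eq_top_iff, ← htop]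
      exact sup_le_sup_right (le_cen _) _
    rw [h1, eq_top_iff, normal_le_normalCore]
  have h3 := (D.pre h).K3_top hK
  ext a
  rw [key, h3, top_sup_eq]
  simp

end LoopData

end Pool.Agent.W2helper28.AIM
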