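import Mathlib

/-!
Abstract group setting for the multiplication group of a loop with abelian
inner mapping group.
-/

set_option autoImplicit false

namespace Pool.Agent.W2helper28.AIM

open Subgroup
open scoped commutatorElement

variable {G : Type*} [Group G]

/-- conjugation `x⁻¹ n x` -/
def cj (x n : G) : G := x⁻¹ * n * x

lemma cj_def (x n : G) : cj x n = x⁻¹ * n * x := rfl
lemma cj_mul (x a b : G) : cj x (a * b) = cj x a * cj x b := by simp only [cj]; group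
lemma cj_inv (x a : G) : cj x a⁻¹ = (cj x a)⁻¹ := by simp only [cj]; group
lemma cj_one (x : G) : cj x (1 : G) = 1 := by simp [cj]
lemma one_cj (a : G) : cj 1 a = a := by simp [cj]
lemma cj_cj (x y n : G) : cj y (cj x n) = cj (x * y) n := by simp only [cj]; group
lemma cj_comm (x a b : G) : cj x ⁅a, b⁆ = ⁅cj x a, cj x b⁆ := by
  simp only [cj, commutatorElement_def]; group
lemma cj_mem {K : Subgroup G} [K.Normal] {x n : G} (h : n ∈ K) : cj x n ∈ K := by
  have := (inferInstance : K.Normal).conj_mem n h x⁻¹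
  simpa [cj] using this
lemma cj_mem_iff {K : Subgroup G} [K.Normal] {x n : G} : cj x n ∈ K ↔ n ∈ K := by
  constructor
  · intro h
    have h2 := cj_mem (x := x⁻¹) h
    rw [cj_cj, mul_inv_cancel, one_cj] at h2
    exact h2
  · exact cj_mem

/-- preimage of the centre of `G / K` -/
def cen (K : Subgroup G) [hK : K.Normal] : Subgroup G where
  carrier := {c | ∀ g, ⁅c, g⁆ ∈ K}
  one_mem' := by
    intro g; simp [commutatorElement_def, K.one_mem]
  mul_mem' := by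
    intro a b ha hb g
    have e : ⁅a * b, g⁆ = a * ⁅b, g⁆ * a⁻¹ * ⁅a, g⁆ := by
      simp only [commutatorElement_def]; group
    rw [e]
    exact K.mul_mem (hK.conj_mem _ (hb g) a) (ha g)
  inv_mem' := by
    intro a ha g
    have e : ⁅a⁻¹, g⁆ = a⁻¹ * (⁅a, g⁆)⁻¹ * (a⁻¹)⁻¹ := by
      simp only [commutatorElement_def]; group
    rw [e]
    exact hK.conj_mem _ (K.inv_mem (ha g)) a⁻¹

lemma mem_cen {K : Subgroup G} [K.Normal] {c : G} : c ∈ cen K ↔ ∀ g, ⁅c, g⁆ ∈ K := Iff.rfl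

lemma le_cen (K : Subgroup G) [hK : K.Normal] : K ≤ cen K := by
  intro c hc g
  have e : ⁅c, g⁆ = c * (g * c⁻¹ * g⁻¹) := by simp only [commutatorElement_def]; group
  rw [e]
  exact K.mul_mem hc (hK.conj_mem _ (K.inv_mem hc) g)

instance cen_normal (K : Subgroup G) [hK : K.Normal] : (cen K).Normal where
  conj_mem := by
    intro n hn g x
    have e : ⁅g * n * g⁻¹, x⁆ = g * ⁅n, g⁻¹ * x * g⁆ * g⁻¹ := by
      simp only [commutatorElement_def]; group
    show ⁅g * n * g⁻¹, x⁆ ∈ K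
    rw [e]
    exact hK.conj_mem _ (hn _) g

/-- conjugating an element of `cen K` moves it by an element of `K` -/
lemma cen_cj {K : Subgroup G} [hK : K.Normal] {c : G} (hc : c ∈ cen K) (x : G) :
    c⁻¹ * cj x c ∈ K := by
  have e : c⁻¹ * cj x c = ⁅c⁻¹, x⁻¹⁆ := by simp only [commutatorElement_def, cj]; group
  rw [e]
  exact (cen K).inv_mem hc _

lemma mem_sup_normal_left {K H : Subgroup G} [K.Normal] {m : G} :
    m ∈ K ⊔ H ↔ ∃ k ∈ K, ∃ h ∈ H, k * h = m := by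
  rw [← SetLike.mem_coe, Subgroup.normal_mul]
  rw [Set.mem_mul]
  rfl

/-- the property `∀ m, (all conjugates of m in K H) → m ∈ K` -/
def PP (H K : Subgroup G) : Prop := ∀ m : G, (∀ g, cj g m ∈ K ⊔ H) → m ∈ K

structure Cfg (G Q : Type*) [Group G] where
  mul : Q → Q → Q
  L : Q → G
  R : Q → G
  H : Subgroup G
  K1 : Subgroup G
  K2 : Subgroup G
  K3 : Subgroup G
  n1 : K1.Normal
  n2 : K2.Normal
  n3 : K3.Normal
  hc : ∀ a ∈ H, ∀ b ∈ H, a * b = b * a
  cov : ∀ g, ∃ a, (L a)⁻¹ * g ∈ H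
  th : ∀ a b, (L (mul a b))⁻¹ * (L a * L b) ∈ H
  rh : ∀ a b, (R (mul a b))⁻¹ * (R b * R a) ∈ H
  ka : ∀ a, (R a)⁻¹ * L a ∈ H
  gen : H ≤ closure ({x | ∃ a, x = (R a)⁻¹ * L a} ∪
      {x | ∃ a b, x = (L (mul a b))⁻¹ * (L a * L b)} ∪
      {x | ∃ a b, x = (R (mul a b))⁻¹ * (R b * R a)})
  P0 : ∀ m : G, (∀ g, cj g m ∈ H) → m = 1
  P1 : PP H K1
  P2 : PP H K2
  k1 : K1 ≤ center G ⊔ H
  k2 : K2 ≤ cen K1 ⊔ H
  k3 : K3 ≤ cen K2 ⊔ H
  hk3 : H ≤ K3
  c0 : center G ≤ K1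
  c1 : cen K1 ≤ K2

attribute [instance] Cfg.n1 Cfg.n2 Cfg.n3

namespace Cfg

variable {Q : Type*} (C : Cfg G Q)

/-- left inner map -/
def t (a b : Q) : G := (C.L (C.mul a b))⁻¹ * (C.L a * C.L b)
/-- right inner map -/
def r (a b : Q) : G := (C.R (C.mul a b))⁻¹ * (C.R b * C.R a)
/-- middle inner map -/
def k (a : Q) : G := (C.R a)⁻¹ * C.L a
/-- mixed inner map -/
def m (a b : Q) : G := (C.R b * C.L a)⁻¹ * (C.L a * C.R b)

lemma tH (a b : Q) : C.t a b ∈ C.H := C.th a b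
lemma rH (a b : Q) : C.r a b ∈ C.H := C.rh a b
lemma kH (a : Q) : C.k a ∈ C.H := C.ka a

lemma m_eq (a b : Q) : C.m a b = (C.k a)⁻¹ * (C.r a b)⁻¹ * C.k (C.mul a b) * C.t a b * (C.k b)⁻¹ := by
  simp only [m, k, r, t]; group

lemma mH (a b : Q) : C.m a b ∈ C.H := by
  rw [m_eq]
  exact C.H.mul_mem (C.H.mul_mem (C.H.mul_mem (C.H.mul_mem (C.H.inv_mem (C.kH _))
    (C.H.inv_mem (C.rH _ _))) (C.kH _)) (C.tH _ _)) (C.H.inv_mem (C.kH _))

lemma LL (a b : Q) : C.L a * C.L b = C.L (C.mul a b) * C.t a b := by simp only [t]; group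
lemma RR (a b : Q) : C.R b * C.R a = C.R (C.mul a b) * C.r a b := by simp only [r]; group
lemma LR (a b : Q) : C.L a * C.R b = C.R b * C.L a * C.m a b := by simp only [m]; group
lemma RL (a b : Q) : C.R b * C.L a = C.L a * C.R b * (C.m a b)⁻¹ := by simp only [m]; group
lemma LRk (a : Q) : C.L a = C.R a * C.k a := by simp only [k]; group
lemma RLk (a : Q) : C.R a = C.L a * (C.k a)⁻¹ := by simp only [k]; group

/-- the opposite configuration -/
def op : Cfg G Q where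
  mul := fun a b => C.mul b a
  L := C.R
  R := C.L
  H := C.H
  K1 := C.K1
  K2 := C.K2
  K3 := C.K3
  n1 := C.n1
  n2 := C.n2
  n3 := C.n3
  hc := C.hc
  cov := by
    intro g
    obtain ⟨a, ha⟩ := C.cov g
    refine ⟨a, ?_⟩
    have e : (C.R a)⁻¹ * g = C.k a * ((C.L a)⁻¹ * g) := by simp only [k]; group
    rw [e]
    exact C.H.mul_mem (C.kH a) ha
  th := fun a b => C.rH b a
  rh := fun a b => C.tH b a
  ka := by
    intro a
    have e : (C.L a)⁻¹ * C.R a = (C.k a)⁻¹ := by simp only [k]; group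
    rw [e]
    exact C.H.inv_mem (C.kH a)
  gen := by
    refine le_trans C.gen ?_
    rw [closure_le]
    rintro x ((⟨a, rfl⟩ | ⟨a, b, rfl⟩) | ⟨a, b, rfl⟩)
    · have e : (C.R a)⁻¹ * C.L a = ((C.L a)⁻¹ * C.R a)⁻¹ := by group
      rw [e]
      exact inv_mem (subset_closure (Or.inl (Or.inl ⟨a, rfl⟩)))
    · exact subset_closure (Or.inr ⟨b, a, rfl⟩)
    · exact subset_closure (Or.inl (Or.inr ⟨b, a, rfl⟩))
  P0 := C.P0
  P1 := C.P1
  P2 := C.P2
  k1 := C.k1
  k2 := C.k2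
  k3 := C.k3
  hk3 := C.hk3
  c0 := C.c0
  c1 := C.c1

lemma covR (g : G) : ∃ a, (C.R a)⁻¹ * g ∈ C.H := C.op.cov g

lemma mulH {a b : G} (ha : a ∈ C.H) (hb : b ∈ C.H) : a * b = b * a := C.hc a ha b hb

lemma cjH {a b : G} (ha : a ∈ C.H) (hb : b ∈ C.H) : cj a b = b := by
  rw [cj_def, mul_assoc, C.mulH hb ha]; group

/-- to check membership by `PP` it is enough to conjugate by the `R a` -/
lemma PR {K : Subgroup G} [K.Normal] (hP : PP C.H K) {x : G}
    (h : ∀ a, cj (C.R a) x ∈ K ⊔ C.H) : x ∈ K := by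
  apply hP
  intro g
  obtain ⟨a, ha⟩ := C.covR g
  have e : g = C.R a * ((C.R a)⁻¹ * g) := by group
  rw [e, ← cj_cj]
  set y := (C.R a)⁻¹ * g
  have hy : y ∈ K ⊔ C.H := mem_sup_right ha
  rw [cj_def]
  exact mul_mem (mul_mem (inv_mem hy) (h a)) hy

lemma PL {K : Subgroup G} [K.Normal] (hP : PP C.H K) {x : G}
    (h : ∀ a, cj (C.L a) x ∈ K ⊔ C.H) : x ∈ K := C.op.PR hP h

lemma PPbot : PP C.H (⊥ : Subgroup G) := by
  intro x hx
  rw [Subgroup.mem_bot]
  apply C.P0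
  intro g
  simpa using hx g

/-- if `L a` is congruent to a central element then it is central -/
lemma CL {K : Subgroup G} [hK : K.Normal] (hP : PP C.H K) {a : Q}
    (h : C.L a ∈ cen K ⊔ C.H) : C.L a ∈ cen K := by
  obtain ⟨c, hc, y, hy, e⟩ := mem_sup_normal_left.1 h
  suffices hyK : y ∈ K by
    rw [← e]; exact (cen K).mul_mem hc (le_cen K hyK)
  apply C.PR hP
  intro b
  have hy2 : y = c⁻¹ * C.L a := by rw [← e]; group
  -- cj (R b) y = (cj (R b) c)⁻¹ * L a * m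
  have e2 : cj (C.R b) y = (cj (C.R b) c)⁻¹ * c * y * C.m a b := by
    rw [hy2]
    have : c * (c⁻¹ * C.L a) = C.L a := by group
    rw [mul_assoc _ c, this]
    simp only [cj, m]; group
  rw [e2]
  have h1 : (cj (C.R b) c)⁻¹ * c ∈ K := by
    have := inv_mem (cen_cj hc (C.R b))
    simpa using this
  exact mul_mem (mul_mem (mem_sup_left h1) (mem_sup_right hy)) (mem_sup_right (C.mH a b))

lemma CR {K : Subgroup G} [hK : K.Normal] (hP : PP C.H K) {a : Q}
    (h : C.L a ∈ cen K ⊔ C.H) : C.R a ∈ cen K := by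
  apply C.op.CL hP
  show C.R a ∈ cen K ⊔ C.H
  rw [C.RLk]
  exact mul_mem h (mem_sup_right (inv_mem (C.kH a)))

/-- `H ∩ cen K ≤ K` -/
lemma HcK {K : Subgroup G} [hK : K.Normal] (hP : PP C.H K) {x : G} (h : x ∈ C.H)
    (hc : x ∈ cen K) : x ∈ K := by
  apply hP
  intro g
  have e : cj g x = x * (x⁻¹ * cj g x) := by group
  rw [e]
  exact mul_mem (mem_sup_right h) (mem_sup_left (cen_cj hc g))

end Cfg

end Pool.Agent.W2helper28.AIM
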