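import Pool.Agent.W2helper28.AIM.Sec4

/-!
Existence of the value group, and the abstract theorem.
-/

set_option autoImplicit false

namespace Pool.Agent.W2helper28.AIM

open Subgroup
open scoped commutatorElement

namespace Cfg

variable {G Q : Type*} [Group G] (C : Cfg G Q)

lemma D_mul_comm (a b : commutator C.N) : a * b = b * a :=
  Subtype.ext (C.D_comm a.2 (C.D_K2 b.2))

/-- elements of the derived subgroup that are in `H` -/
def DH : Subgroup (commutator C.N) := (C.H.subgroupOf C.N).subgroupOf (commutator C.N)

instance DH_normal : C.DH.Normal where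
  conj_mem := by
    intro n hn g
    rw [C.D_mul_comm g n, mul_assoc, mul_inv_cancel, mul_one]
    exact hn

theorem main : C.H ≤ C.K2 := by
  let _i : CommGroup ((commutator C.N) ⧸ C.DH) :=
    { (inferInstance : Group ((commutator C.N) ⧸ C.DH)) with
      mul_comm := by
        rintro ⟨a⟩ ⟨b⟩
        exact congrArg QuotientGroup.mk (C.D_mul_comm a b) }
  classical
  let ep : C.N → Additive ((commutator C.N) ⧸ C.DH) := fun a => if h : a ∈ commutator C.N then
    Additive.ofMul (QuotientGroup.mk (⟨a, h⟩ : commutator C.N)) else 0
  have hep : ∀ a (h : a ∈ commutator C.N), ep a =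
      Additive.ofMul (QuotientGroup.mk (⟨a, h⟩ : commutator C.N)) := by
    intro a h
    simp only [ep, dif_pos h]
  let P : Ep C (Additive ((commutator C.N) ⧸ C.DH)) :=
    { ep := ep
      mul := by
        intro a b ha hb
        rw [hep a ha, hep b hb, hep (a * b) (mul_mem ha hb)]
        rfl
      zero := by
        intro a ha
        rw [hep a ha, ofMul_eq_zero, QuotientGroup.eq_one_iff]
        rfl }
  exact P.H_le_K2

end Cfg

end Pool.Agent.W2helper28.AIM
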