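import Pool.Agent.W2helper28.AIM.Basic

/-!
Commutator facts for the abstract configuration.
-/

set_option autoImplicit false

namespace Pool.Agent.W2helper28.AIM

open Subgroup
open scoped commutatorElement

/-- elements whose commutators with `A` lie in `B` -/
def cenOf {G : Type*} [Group G] (A B : Subgroup G) [hB : B.Normal] : Subgroup G where
  carrier := {n | ∀ a ∈ A, ⁅a, n⁆ ∈ B}
  one_mem' := by
    intro a _; simp [commutatorElement_def, B.one_mem]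
  mul_mem' := by
    intro n m hn hm a ha
    have e : ⁅a, n * m⁆ = ⁅a, n⁆ * (n * ⁅a, m⁆ * n⁻¹) := by
      simp only [commutatorElement_def]; group
    rw [e]
    exact B.mul_mem (hn a ha) (hB.conj_mem _ (hm a ha) n)
  inv_mem' := by
    intro n hn a ha
    have e : ⁅a, n⁻¹⁆ = n⁻¹ * (⁅a, n⁆)⁻¹ * (n⁻¹)⁻¹ := by
      simp only [commutatorElement_def]; group
    rw [e]
    exact hB.conj_mem _ (B.inv_mem (hn a ha)) n⁻¹

instance cenOf_normal {G : Type*} [Group G] (A B : Subgroup G) [hA : A.Normal] [hB : B.Normal] :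
    (cenOf A B).Normal where
  conj_mem := by
    intro n hn g a ha
    have e : ⁅a, g * n * g⁻¹⁆ = g * ⁅g⁻¹ * a * g, n⁆ * g⁻¹ := by
      simp only [commutatorElement_def]; group
    rw [e]
    refine hB.conj_mem _ (hn _ ?_) g
    have := hA.conj_mem a ha g⁻¹
    simpa using this

namespace Cfg

variable {G Q : Type*} [Group G] (C : Cfg G Q)

/-- normal closure of `H` -/
def N : Subgroup G := normalClosure (C.H : Set G)

instance N_normal : C.N.Normal := normalClosure_normal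

lemma HN {x : G} (h : x ∈ C.H) : x ∈ C.N := subset_normalClosure h

lemma N_le {K : Subgroup G} [K.Normal] (h : C.H ≤ K) : C.N ≤ K := normalClosure_le_normal h

lemma N_le_K3 : C.N ≤ C.K3 := C.N_le C.hk3

lemma K1N {k n : G} (hk : k ∈ C.K1) (hn : n ∈ C.N) : k * n = n * k := by
  have h : C.N ≤ cenOf C.K1 (⊥ : Subgroup G) := by
    apply C.N_le
    intro x hx a ha
    obtain ⟨z, hz, y, hy, e⟩ := mem_sup_normal_left.1 (C.k1 ha)
    rw [Subgroup.mem_bot, commutatorElement_eq_one_iff_mul_comm, ← e, mul_assoc, C.mulH hy hx,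
      ← mul_assoc, ← mul_assoc]
    congr 1
    exact ((mem_center_iff.1 hz) x).symm
  have := h hn k hk
  rwa [Subgroup.mem_bot, commutatorElement_eq_one_iff_mul_comm] at this

lemma comm_aux {A B : Subgroup G} [A.Normal] [hB : B.Normal] (h : A ≤ cen B ⊔ C.H) {k n : G}
    (hk : k ∈ A) (hn : n ∈ C.N) : ⁅k, n⁆ ∈ B := by
  have h : C.N ≤ cenOf A B := by
    apply C.N_le
    intro x hx a ha
    obtain ⟨z, hz, y, hy, e⟩ := mem_sup_normal_left.1 (h ha)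
    have e2 : ⁅a, x⁆ = ⁅z, y * x * y⁻¹⁆ * ⁅y, x⁆ := by
      rw [← e]; simp only [commutatorElement_def]; group
    rw [e2, commutatorElement_eq_one_iff_mul_comm.2 (C.mulH hy hx), mul_one]
    exact hz _
  exact h hn k hk

lemma K2N {k n : G} (hk : k ∈ C.K2) (hn : n ∈ C.N) : ⁅k, n⁆ ∈ C.K1 := C.comm_aux C.k2 hk hn

lemma NK2 {k n : G} (hn : n ∈ C.N) (hk : k ∈ C.K2) : ⁅n, k⁆ ∈ C.K1 := by
  have e : ⁅n, k⁆ = (⁅k, n⁆)⁻¹ := by simp only [commutatorElement_def]; group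
  rw [e]; exact inv_mem (C.K2N hk hn)

lemma K3N {k n : G} (hk : k ∈ C.K3) (hn : n ∈ C.N) : ⁅k, n⁆ ∈ C.K2 := C.comm_aux C.k3 hk hn

lemma NN {k n : G} (hk : k ∈ C.N) (hn : n ∈ C.N) : ⁅k, n⁆ ∈ C.K2 := C.K3N (C.N_le_K3 hk) hn

lemma DK2' : ⁅⁅C.N, C.N⁆, C.K2⁆ = ⊥ := by
  have h1 : ⁅C.K2, C.N⁆ ≤ C.K1 := by
    rw [Subgroup.commutator_le]; exact fun a ha b hb => C.K2N ha hb
  have h2 : ⁅C.K1, C.N⁆ = ⊥ := by
    rw [eq_bot_iff, Subgroup.commutator_le]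
    intro a ha b hb
    rw [Subgroup.mem_bot, commutatorElement_eq_one_iff_mul_comm]
    exact C.K1N ha hb
  have h3 : ⁅⁅C.K2, C.N⁆, C.N⁆ = ⊥ := by
    rw [eq_bot_iff, ← h2]; exact commutator_mono h1 le_rfl
  apply commutator_commutator_eq_bot_of_rotate
  · rw [commutator_comm C.N C.K2]; exact h3
  · exact h3

lemma DK2 {d k : G} (hd : d ∈ ⁅C.N, C.N⁆) (hk : k ∈ C.K2) : d * k = k * d := by
  have := commutator_mem_commutator hd hk
  rw [C.DK2', Subgroup.mem_bot, commutatorElement_eq_one_iff_mul_comm] at this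
  exact this

lemma D_le : ⁅C.N, C.N⁆ ≤ C.K2 := by
  rw [Subgroup.commutator_le]; exact fun a ha b hb => C.NN ha hb

lemma qL (a : Q) : (QuotientGroup.mk (C.L a) : G ⧸ C.N) = QuotientGroup.mk (C.R a) := by
  rw [C.LRk a]
  have : (QuotientGroup.mk (C.k a) : G ⧸ C.N) = 1 := (QuotientGroup.eq_one_iff _).2 (C.HN (C.kH a))
  rw [QuotientGroup.mk_mul, this, mul_one]

lemma GN (x y : G) : ⁅x, y⁆ ∈ C.N := by
  have hH : ∀ h ∈ C.H, (QuotientGroup.mk h : G ⧸ C.N) = 1 :=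
    fun h hh => (QuotientGroup.eq_one_iff _).2 (C.HN hh)
  obtain ⟨a, ha⟩ := C.cov x
  obtain ⟨b, hb⟩ := C.cov y
  have hx : (QuotientGroup.mk x : G ⧸ C.N) = QuotientGroup.mk (C.L a) := by
    have e : x = C.L a * ((C.L a)⁻¹ * x) := by group
    rw [e, QuotientGroup.mk_mul, hH _ ha, mul_one]
  have hy : (QuotientGroup.mk y : G ⧸ C.N) = QuotientGroup.mk (C.L b) := by
    have e : y = C.L b * ((C.L b)⁻¹ * y) := by group
    rw [e, QuotientGroup.mk_mul, hH _ hb, mul_one]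
  have h1 : (QuotientGroup.mk (C.L a) : G ⧸ C.N) * QuotientGroup.mk (C.L b) =
      QuotientGroup.mk (C.L (C.mul a b)) := by
    rw [← QuotientGroup.mk_mul, C.LL, QuotientGroup.mk_mul, hH _ (C.tH a b), mul_one]
  have h2 : (QuotientGroup.mk (C.R b) : G ⧸ C.N) * QuotientGroup.mk (C.R a) =
      QuotientGroup.mk (C.R (C.mul a b)) := by
    rw [← QuotientGroup.mk_mul, C.RR, QuotientGroup.mk_mul, hH _ (C.rH a b), mul_one]
  rw [← QuotientGroup.eq_one_iff]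
  have e3 : (QuotientGroup.mk ⁅x, y⁆ : G ⧸ C.N) =
      ⁅(QuotientGroup.mk x : G ⧸ C.N), (QuotientGroup.mk y : G ⧸ C.N)⁆ := rfl
  rw [e3, commutatorElement_eq_one_iff_mul_comm, hx, hy, h1, C.qL (C.mul a b), ← h2, C.qL a, C.qL b]

lemma RN {q : Q} (hq : C.L q ∈ C.N) : C.R q ∈ C.N := by
  rw [C.RLk]; exact mul_mem hq (inv_mem (C.HN (C.kH q)))

/-- the left translation part of an element of a normal subgroup containing `H` -/
lemma L_of {K : Subgroup G} (h : C.H ≤ K) {g : G} (hg : g ∈ K) {a : Q}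
    (ha : (C.L a)⁻¹ * g ∈ C.H) : C.L a ∈ K := by
  have e : C.L a = g * ((C.L a)⁻¹ * g)⁻¹ := by group
  rw [e]; exact mul_mem hg (inv_mem (h ha))

lemma Lc2 {q : Q} (hq : C.L q ∈ C.N) : C.L q ∈ cen C.K2 :=
  C.CL C.P2 (C.k3 (C.N_le_K3 hq))

lemma Rc2 {q : Q} (hq : C.L q ∈ C.N) : C.R q ∈ cen C.K2 :=
  C.CR C.P2 (C.k3 (C.N_le_K3 hq))

lemma kc2 {q : Q} (hq : C.L q ∈ C.N) : C.k q ∈ C.K2 :=
  C.HcK C.P2 (C.kH q) (mul_mem (inv_mem (C.Rc2 hq)) (C.Lc2 hq))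

lemma Lc1 {u : Q} (hu : C.L u ∈ C.K2) : C.L u ∈ cen C.K1 := C.CL C.P1 (C.k2 hu)

lemma Rc1 {u : Q} (hu : C.L u ∈ C.K2) : C.R u ∈ cen C.K1 := C.CR C.P1 (C.k2 hu)

lemma kc1 {u : Q} (hu : C.L u ∈ C.K2) : C.k u ∈ C.K1 :=
  C.HcK C.P1 (C.kH u) (mul_mem (inv_mem (C.Rc1 hu)) (C.Lc1 hu))

/-- decomposition of elements of `K2` -/
lemma dec {n : G} (hn : n ∈ C.K2) : ∃ u : Q, ∃ k ∈ C.H, k ∈ C.K2 ∧ C.L u ∈ C.K2 ∧
    C.L u ∈ cen C.K1 ∧ n = C.L u * k := by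
  obtain ⟨a, ha⟩ := C.cov n
  have hL : C.L a ∈ cen C.K1 := by
    apply C.CL C.P1
    have e : C.L a = n * ((C.L a)⁻¹ * n)⁻¹ := by group
    rw [e]
    exact mul_mem (C.k2 hn) (mem_sup_right (inv_mem ha))
  have hL2 : C.L a ∈ C.K2 := C.c1 hL
  exact ⟨a, (C.L a)⁻¹ * n, ha, mul_mem (inv_mem hL2) hn, hL2, hL, by group⟩

lemma cen_of_cj {K : Subgroup G} [hK : K.Normal] {c : G} (h : ∀ g, c⁻¹ * cj g c ∈ K) :
    c ∈ cen K := by
  intro g
  have e : ⁅c, g⁆ = c * ((c⁻¹ * cj g⁻¹ c))⁻¹ * c⁻¹ := by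
    simp only [commutatorElement_def, cj]; group
  rw [e]
  exact hK.conj_mem _ (inv_mem (h _)) c

lemma cjLR (a c : Q) : cj (C.R c) (C.L a) = C.L a * C.m a c := by
  simp only [cj, m]; group

lemma t_conj (a b c : Q) : cj (C.R c) (C.t a b) =
    (C.m (C.mul a b) c)⁻¹ * C.t a b * cj (C.L b) (C.m a c) * C.m b c := by
  simp only [cj, m, t]; group

lemma mK {K : Subgroup G} [K.Normal] {a b : Q} (h : C.L a ∈ cen K) : C.m a b ∈ K := by
  have e : C.m a b = ⁅(C.L a)⁻¹, (C.R b)⁻¹⁆ := by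
    simp only [commutatorElement_def, m]; group
  rw [e]
  exact inv_mem h _

lemma mK' {K : Subgroup G} [K.Normal] {a b : Q} (h : C.R b ∈ cen K) : C.m a b ∈ K := by
  have e : C.m a b = (⁅(C.R b)⁻¹, (C.L a)⁻¹⁆)⁻¹ := by
    simp only [commutatorElement_def, m]; group
  rw [e]
  exact inv_mem (inv_mem h _)

lemma tK {K : Subgroup G} [hK : K.Normal] (hP : PP C.H K) {u x : Q} (h : C.L u ∈ cen K) :
    C.t u x ∈ K := by
  apply C.PR hP
  intro c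
  rw [C.t_conj]
  refine mul_mem (mul_mem (mem_sup_right (mul_mem (inv_mem (C.mH _ _)) (C.tH _ _)))
    (mem_sup_left (cj_mem (C.mK h)))) (mem_sup_right (C.mH _ _))

lemma tK' {K : Subgroup G} [hK : K.Normal] (hP : PP C.H K) {u x : Q} (h : C.L u ∈ cen K) :
    C.t x u ∈ K := by
  apply C.PR hP
  intro c
  rw [C.t_conj]
  have e : cj (C.L u) (C.m x c) = C.m x c * ((C.m x c)⁻¹ * cj (C.L u) (C.m x c)) := by group
  have e2 : (C.m x c)⁻¹ * cj (C.L u) (C.m x c) ∈ K := by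
    have e3 : (C.m x c)⁻¹ * cj (C.L u) (C.m x c) = (⁅(C.L u)⁻¹, (C.m x c)⁻¹⁆)⁻¹ := by
      simp only [commutatorElement_def, cj]; group
    rw [e3]
    exact inv_mem (inv_mem h _)
  refine mul_mem (mul_mem (mem_sup_right (mul_mem (inv_mem (C.mH _ _)) (C.tH _ _)))
    ?_) (mem_sup_right (C.mH _ _))
  rw [e]
  exact mul_mem (mem_sup_right (C.mH _ _)) (mem_sup_left e2)

/-- `L u` central mod `K1` commutes with `R q` for `L q ∈ N` -/
lemma LuRq {u q : Q} (hu : C.L u ∈ C.K2) (hq : C.L q ∈ C.N) :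
    C.L u * C.R q = C.R q * C.L u := by
  have hc := C.Lc1 hu
  suffices h : C.m u q = 1 by
    have := C.LR u q
    rw [h, mul_one] at this
    exact this
  rw [← Subgroup.mem_bot]
  apply C.PL C.PPbot
  intro x
  apply mem_sup_right
  have e : cj (C.L x) (C.m u q) =
      (C.t u x)⁻¹ * C.m (C.mul u x) q * cj (C.R q) (C.t u x) * (C.m x q)⁻¹ := by
    simp only [cj, m, t]; group
  have ht : C.t u x ∈ C.K1 := C.tK C.P1 hc
  have e2 : cj (C.R q) (C.t u x) = C.t u x := by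
    rw [cj_def, mul_assoc, C.K1N ht (C.RN hq)]; group
  rw [e, e2]
  exact mul_mem (mul_mem (mul_mem (inv_mem (C.tH _ _)) (C.mH _ _)) (C.tH _ _)) (inv_mem (C.mH _ _))

lemma opN : C.op.N = C.N := rfl

lemma opRN {q : Q} (hq : C.L q ∈ C.N) : C.op.L q ∈ C.op.N := C.RN hq

lemma Ru2 {u : Q} (hu : C.L u ∈ C.K2) : C.R u ∈ C.K2 := C.c1 (C.Rc1 hu)

lemma RuLq {u q : Q} (hu : C.L u ∈ C.K2) (hq : C.L q ∈ C.N) :
    C.R u * C.L q = C.L q * C.R u := C.op.LuRq (C.Ru2 hu) (C.RN hq)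

lemma LuLq {u q : Q} (hu : C.L u ∈ C.K2) (hq : C.L q ∈ C.N) :
    C.L u * C.L q = C.L q * C.L u := by
  rw [C.LRk u, mul_assoc, C.K1N (C.kc1 hu) hq, ← mul_assoc, C.RuLq hu hq, mul_assoc]

/-- commutators of elements of `N` central mod `K2` are central mod `K1` -/
lemma comm_c1 {a b : G} (ha : a ∈ C.N) (hb : b ∈ C.N) (ha2 : a ∈ cen C.K2) (hb2 : b ∈ cen C.K2) :
    ⁅a, b⁆ ∈ cen C.K1 := by
  apply cen_of_cj
  intro g
  rw [cj_comm]
  set k := a⁻¹ * cj g a with hk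
  set l := b⁻¹ * cj g b with hl
  have hk2 : k ∈ C.K2 := cen_cj ha2 g
  have hl2 : l ∈ C.K2 := cen_cj hb2 g
  have e1 : cj g a = a * k := by rw [hk]; group
  have e2 : cj g b = b * l := by rw [hl]; group
  have hbl : b * l ∈ C.N := by rw [← e2]; exact cj_mem hb
  rw [e1, e2]
  have e3 : ⁅a, b⁆⁻¹ * ⁅a * k, b * l⁆ =
      (⁅a, b⁆⁻¹ * (a * ⁅k, b * l⁆ * a⁻¹) * (⁅a, b⁆⁻¹)⁻¹) * (b * ⁅a, l⁆ * b⁻¹) := by
    simp only [commutatorElement_def]; group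
  rw [e3]
  exact mul_mem (C.n1.conj_mem _ (C.n1.conj_mem _ (C.K2N hk2 hbl) _) _)
    (C.n1.conj_mem _ (C.NK2 ha hl2) _)

lemma mK1 {p q : Q} (hp : C.L p ∈ C.N) (hq : C.L q ∈ C.N) : C.m p q ∈ C.K1 := by
  apply C.HcK C.P1 (C.mH p q)
  have e : C.m p q = ⁅(C.L p)⁻¹, (C.R q)⁻¹⁆ := by
    simp only [commutatorElement_def, m]; group
  rw [e]
  exact C.comm_c1 (inv_mem hp) (inv_mem (C.RN hq)) (inv_mem (C.Lc2 hp)) (inv_mem (C.Rc2 hq))

/-- `⁅L p, R q⁆ = m p q` inside `N` -/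
lemma LpRq {p q : Q} (hp : C.L p ∈ C.N) (hq : C.L q ∈ C.N) : ⁅C.L p, C.R q⁆ = C.m p q := by
  have e : ⁅C.L p, C.R q⁆ = (C.R q * C.L p) * C.m p q * (C.R q * C.L p)⁻¹ := by
    simp only [commutatorElement_def, m]; group
  rw [e, ← C.K1N (C.mK1 hp hq) (mul_mem (C.RN hq) hp)]
  group

lemma LpLq {p q : Q} (hp : C.L p ∈ C.N) (hq : C.L q ∈ C.N) : ⁅C.L p, C.L q⁆ ∈ C.K1 := by
  have e : ⁅C.L p, C.L q⁆ = ⁅C.L p, C.R q⁆ * (C.R q * ⁅C.L p, C.k q⁆ * (C.R q)⁻¹) := by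
    rw [C.LRk q]; simp only [commutatorElement_def]; group
  rw [e, C.LpRq hp hq]
  exact mul_mem (C.mK1 hp hq) (C.n1.conj_mem _ (C.NK2 hp (C.kc2 hq)) _)

/-- elements `(R a)⁻¹ * R b` of `N` are central mod `K2` -/
lemma LC {a b : Q} (h : (C.R a)⁻¹ * C.R b ∈ C.N) : (C.R a)⁻¹ * C.R b ∈ cen C.K2 := by
  obtain ⟨c, hc⟩ := C.cov ((C.R a)⁻¹ * C.R b)
  have hLc : C.L c ∈ C.N := C.L_of (fun _ h => C.HN h) h hc
  have hL2 := C.Lc2 hLc
  set y := (C.L c)⁻¹ * ((C.R a)⁻¹ * C.R b) with hy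
  have hyK : y ∈ C.K2 := by
    apply C.PL C.P2
    intro d
    have e : cj (C.L d) y = ((C.L d)⁻¹ * (C.L c)⁻¹ * C.L d * C.L c) *
        ((C.L c)⁻¹ * C.m d a * C.L c * (C.m d a)⁻¹) * (C.m d a * y * (C.m d b)⁻¹) := by
      simp only [hy, cj, m]; group
    rw [e]
    refine mul_mem (mul_mem (mem_sup_left ?_) (mem_sup_left ?_)) (mem_sup_right
      (mul_mem (mul_mem (C.mH _ _) hc) (inv_mem (C.mH _ _))))
    · have e : (C.L d)⁻¹ * (C.L c)⁻¹ * C.L d * C.L c = (⁅(C.L c)⁻¹, (C.L d)⁻¹⁆)⁻¹ := by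
        simp only [commutatorElement_def]; group
      have e' : (C.L d)⁻¹ * (C.L c)⁻¹ * C.L d * C.L c =
          (C.L d)⁻¹ * ⁅(C.L c)⁻¹, C.L d⁆ * C.L d := by
        simp only [commutatorElement_def]; group
      rw [e']
      have := C.n2.conj_mem _ (inv_mem hL2 (C.L d)) (C.L d)⁻¹
      simpa using this
    · have e : (C.L c)⁻¹ * C.m d a * C.L c * (C.m d a)⁻¹ = ⁅(C.L c)⁻¹, C.m d a⁆ := by
        simp only [commutatorElement_def]; group
      rw [e]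
      exact inv_mem hL2 _
  have e : (C.R a)⁻¹ * C.R b = C.L c * y := by rw [hy]; group
  rw [e]
  exact mul_mem hL2 (le_cen _ hyK)

/-- criterion for centrality mod `K` -/
lemma FIX {K : Subgroup G} [hK : K.Normal] (hP : PP C.H K) {a : Q}
    (h : ∀ f ∈ C.H, (C.L a)⁻¹ * f * C.L a ∈ K ⊔ C.H) : C.L a ∈ cen K := by
  have key : ∀ g : G, (C.R a * g)⁻¹ * (g * C.L a) ∈ K ⊔ C.H := by
    intro g
    obtain ⟨x, hx⟩ := C.cov g
    set y := (C.L x)⁻¹ * g with hy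
    have e : (C.R a * g)⁻¹ * (g * C.L a) = (y⁻¹ * (C.k x)⁻¹ * (C.r x a)⁻¹ * C.k (C.mul x a) *
        C.t x a) * ((C.L a)⁻¹ * y * C.L a) := by
      simp only [hy, k, r, t]; group
    rw [e]
    refine mul_mem (mem_sup_right ?_) (h y hx)
    exact mul_mem (mul_mem (mul_mem (mul_mem (inv_mem hx) (inv_mem (C.kH _)))
      (inv_mem (C.rH _ _))) (C.kH _)) (C.tH _ _)
  have hR : C.R a ∈ cen K := by
    intro g
    have e : ⁅C.R a, g⁆ = (C.R a * g) * ((C.R a * g)⁻¹ * (g * C.R a))⁻¹ * (C.R a * g)⁻¹ := by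
      simp only [commutatorElement_def]; group
    rw [e]
    refine hK.conj_mem _ (inv_mem (hP _ ?_)) _
    intro z
    have e2 : cj z ((C.R a * g)⁻¹ * (g * C.R a)) =
        ((C.R a * (g * z))⁻¹ * ((g * z) * C.L a)) * ((C.R a * z)⁻¹ * (z * C.L a))⁻¹ := by
      simp only [cj]; group
    rw [e2]
    exact mul_mem (key _) (inv_mem (key _))
  apply C.op.CR hP
  show C.R a ∈ cen K ⊔ C.H
  exact mem_sup_left hR

/-- if all `⁅g, ⁅f, L q⁆⁆` are in `H` then `L q` is central mod `K1` -/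
lemma RAD {q : Q} (hq : C.L q ∈ C.N) (h : ∀ g ∈ C.H, ∀ f ∈ C.H, ⁅g, ⁅f, C.L q⁆⁆ ∈ C.H) :
    C.L q ∈ cen C.K1 := by
  apply C.FIX C.P1
  intro f hf
  have hd : ⁅f, C.L q⁆ ∈ C.K2 := C.NN (C.HN hf) hq
  have hdN : ⁅f, C.L q⁆ ∈ C.N := C.GN _ _
  obtain ⟨u, k, hkH, hk2, hu2, hu, e⟩ := C.dec hd
  have huN : C.L u ∈ C.N := by
    have e1 : C.L u = ⁅f, C.L q⁆ * k⁻¹ := by rw [e]; group
    rw [e1]; exact mul_mem hdN (inv_mem (C.HN hkH))
  have hcen : C.L u ∈ center G := by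
    have hb : C.L u ∈ cen (⊥ : Subgroup G) := by
      apply C.FIX C.PPbot
      intro g hg
      apply mem_sup_right
      have h1 := h g hg f hf
      rw [e] at h1
      have e2 : ⁅g, C.L u * k⁆ = ⁅g, C.L u⁆ := by
        have : ⁅g, C.L u * k⁆ = ⁅g, C.L u⁆ * (C.L u * ⁅g, k⁆ * (C.L u)⁻¹) := by
          simp only [commutatorElement_def]; group
        rw [this, commutatorElement_eq_one_iff_mul_comm.2 (C.mulH hg hkH)]; group
      rw [e2] at h1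
      have h3 : (C.L u)⁻¹ * g * C.L u = ((C.L u)⁻¹ * ⁅g, C.L u⁆ * C.L u) * g := by
        simp only [commutatorElement_def]; group
      have h4 : (C.L u)⁻¹ * ⁅g, C.L u⁆ * C.L u = ⁅g, C.L u⁆ := by
        rw [mul_assoc, C.K1N (C.NK2 (C.HN hg) hu2) huN]; group
      rw [h3, h4]
      exact mul_mem h1 hg
    rw [mem_center_iff]
    intro g
    have := hb g
    rw [Subgroup.mem_bot, commutatorElement_eq_one_iff_mul_comm] at this
    exact this.symm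
  have h5 : (C.L q)⁻¹ * f * C.L q = ((C.L q)⁻¹ * ⁅f, C.L q⁆ * C.L q) * f := by
    simp only [commutatorElement_def]; group
  have h6 : (C.L q)⁻¹ * ⁅f, C.L q⁆ * C.L q = (⁅(C.L q)⁻¹, ⁅f, C.L q⁆⁆) * ⁅f, C.L q⁆ := by
    simp only [commutatorElement_def]; group
  rw [h5, h6]
  refine mul_mem (mul_mem (mem_sup_left (C.NK2 (inv_mem hq) hd)) ?_) (mem_sup_right hf)
  rw [e]
  exact mul_mem (mem_sup_left (C.c0 hcen)) (mem_sup_right hkH)

end Cfg

end Pool.Agent.W2helper28.AIM
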