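import Pool.Agent.W2helper28.AIM.Sec0

/-!
The calculus of commutators in the normal closure of `H`, with values in
`[N, N] / ([N, N] ∩ H)`.
-/

set_option autoImplicit false

namespace Pool.Agent.W2helper28.AIM

open Subgroup
open scoped commutatorElement

namespace Cfg

variable {G Q : Type*} [Group G] (C : Cfg G Q)

/-- inclusion of `H` in `N` -/
def i (h : C.H) : C.N := ⟨h, C.HN h.2⟩

lemma i_mul (g h : C.H) : C.i (g * h) = C.i g * C.i h := rfl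
lemma i_inv (g : C.H) : C.i g⁻¹ = (C.i g)⁻¹ := rfl
lemma i_one : C.i 1 = 1 := rfl
lemma i_comm (g h : C.H) : C.i g * C.i h = C.i h * C.i g :=
  Subtype.ext (C.mulH g.2 h.2)
lemma i_comm' (g h : C.H) : ⁅C.i g, C.i h⁆ = 1 :=
  commutatorElement_eq_one_iff_mul_comm.2 (C.i_comm g h)

/-- conjugation -/
def cM (x : G) (n : C.N) : C.N := ⟨cj x n, cj_mem n.2⟩

lemma cM_coe (x : G) (n : C.N) : ((C.cM x n : C.N) : G) = cj x n := rfl
lemma cM_mul (x : G) (a b : C.N) : C.cM x (a * b) = C.cM x a * C.cM x b :=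
  Subtype.ext (cj_mul x a b)
lemma cM_inv (x : G) (a : C.N) : C.cM x a⁻¹ = (C.cM x a)⁻¹ := Subtype.ext (cj_inv x a)
lemma cM_one (x : G) : C.cM x 1 = 1 := Subtype.ext (cj_one x)
lemma one_cM (a : C.N) : C.cM 1 a = a := Subtype.ext (one_cj _)
lemma cM_cM (x y : G) (n : C.N) : C.cM y (C.cM x n) = C.cM (x * y) n :=
  Subtype.ext (cj_cj x y n)
lemma cM_comm (x : G) (a b : C.N) : C.cM x ⁅a, b⁆ = ⁅C.cM x a, C.cM x b⁆ :=
  Subtype.ext (cj_comm x a b)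
lemma cM_N (n a : C.N) : C.cM n a = n⁻¹ * a * n := rfl

/-- points whose left translation is in `N` -/
def QN := {q : Q // C.L q ∈ C.N}

def l (q : C.QN) : C.N := ⟨C.L q.1, q.2⟩
def rt (q : C.QN) : C.N := ⟨C.R q.1, C.RN q.2⟩
def kk (a : Q) : C.H := ⟨C.k a, C.kH a⟩
def tt (a b : Q) : C.H := ⟨C.t a b, C.tH a b⟩
def rr (a b : Q) : C.H := ⟨C.r a b, C.rH a b⟩
def mm (a b : Q) : C.H := ⟨C.m a b, C.mH a b⟩

noncomputable def pt (g : G) : Q := Classical.choose (C.cov g)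
lemma pt_spec (g : G) : (C.L (C.pt g))⁻¹ * g ∈ C.H := Classical.choose_spec (C.cov g)
noncomputable def hp (g : G) : C.H := ⟨(C.L (C.pt g))⁻¹ * g, C.pt_spec g⟩
lemma pt_hp (g : G) : C.L (C.pt g) * C.hp g = g := by simp [hp]
noncomputable def sg (g : G) : C.H := C.kk (C.pt g) * C.hp g
lemma pt_sg (g : G) : C.R (C.pt g) * C.sg g = g := by
  simp only [sg, kk, hp, k, Subgroup.coe_mul]; group

noncomputable def hat (h : C.H) (x : G) : C.QN :=
  ⟨C.pt (C.cM x (C.i h)), C.L_of (fun _ h => C.HN h) (C.cM x (C.i h)).2 (C.pt_spec _)⟩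
noncomputable def br (h : C.H) (x : G) : C.H := C.hp (C.cM x (C.i h))

lemma cM_i (h : C.H) (x : G) : C.cM x (C.i h) = C.l (C.hat h x) * C.i (C.br h x) :=
  Subtype.ext (C.pt_hp _).symm

lemma l_eq (q : C.QN) : C.l q = C.rt q * C.i (C.kk q.1) := Subtype.ext (C.LRk q.1)
lemma rt_eq (q : C.QN) : C.rt q = C.l q * (C.i (C.kk q.1))⁻¹ := Subtype.ext (C.RLk q.1)

lemma coe_D {a : C.N} (ha : a ∈ commutator C.N) : (a : G) ∈ ⁅C.N, C.N⁆ := by
  rw [← Subgroup.map_subtype_commutator]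
  exact ⟨a, ha, rfl⟩

lemma comm_D (a b : C.N) : ⁅a, b⁆ ∈ commutator C.N :=
  Subgroup.commutator_mem_commutator (mem_top a) (mem_top b)

lemma D_K2 {a : C.N} (ha : a ∈ commutator C.N) : (a : G) ∈ C.K2 := C.D_le (C.coe_D ha)

lemma comm_K2 (a b : C.N) : ((⁅a, b⁆ : C.N) : G) ∈ C.K2 := C.D_K2 (C.comm_D a b)

lemma D_comm {a k : C.N} (ha : a ∈ commutator C.N) (hk : (k : G) ∈ C.K2) : a * k = k * a :=
  Subtype.ext (C.DK2 (C.coe_D ha) hk)

lemma K1_comm {k n : C.N} (hk : (k : G) ∈ C.K1) : k * n = n * k := Subtype.ext (C.K1N hk n.2)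

lemma K2_K1 {k : C.N} (n : C.N) (hk : (k : G) ∈ C.K2) : ((⁅k, n⁆ : C.N) : G) ∈ C.K1 :=
  C.K2N hk n.2
lemma K2_K1' {k : C.N} (n : C.N) (hk : (k : G) ∈ C.K2) : ((⁅n, k⁆ : C.N) : G) ∈ C.K1 :=
  C.NK2 n.2 hk

lemma K1_le_K2 : C.K1 ≤ C.K2 := le_trans (le_cen _) C.c1

end Cfg

structure Ep {G Q : Type*} [Group G] (C : Cfg G Q) (E : Type*) [AddCommGroup E] where
  ep : C.N → E
  mul : ∀ a b : C.N, a ∈ commutator C.N → b ∈ commutator C.N → ep (a * b) = ep a + ep b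
  zero : ∀ a : C.N, a ∈ commutator C.N → (ep a = 0 ↔ (a : G) ∈ C.H)

namespace Ep

variable {G Q : Type*} [Group G] {C : Cfg G Q} {E : Type*} [AddCommGroup E] (P : Ep C E)

/-- the same for the opposite configuration -/
def op : Ep C.op E := ⟨P.ep, P.mul, P.zero⟩

lemma one : P.ep 1 = 0 := by
  have := P.mul 1 1 (one_mem _) (one_mem _)
  simpa using this

lemma inv {a : C.N} (ha : a ∈ commutator C.N) : P.ep a⁻¹ = - P.ep a := by
  have := P.mul a⁻¹ a (inv_mem ha) ha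
  rw [inv_mul_cancel, P.one] at this
  exact eq_neg_of_add_eq_zero_left this.symm

/-- commutator with values in `E` -/
def be (a b : C.N) : E := P.ep ⁅a, b⁆
/-- triple commutator with values in `E` -/
def ga (a b c : C.N) : E := P.ep ⁅a, ⁅b, c⁆⁆

lemma be_D (a b c : C.N) : P.be a ⁅b, c⁆ = P.ga a b c := rfl

lemma be_mul_left (a b c : C.N) : P.be (a * b) c = P.be a c + P.be b c + P.ga a b c := by
  have e : ⁅a * b, c⁆ = ⁅a, ⁅b, c⁆⁆ * (⁅b, c⁆ * ⁅a, c⁆) := by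
    simp only [commutatorElement_def]; group
  rw [be, e, P.mul _ _ (C.comm_D _ _) (mul_mem (C.comm_D _ _) (C.comm_D _ _)),
    P.mul _ _ (C.comm_D _ _) (C.comm_D _ _)]
  simp only [be, ga]
  abel

lemma be_mul_right (a b c : C.N) : P.be a (b * c) = P.be a b + P.be a c + P.ga b a c := by
  have e : ⁅a, b * c⁆ = ⁅a, b⁆ * (⁅b, ⁅a, c⁆⁆ * ⁅a, c⁆) := by
    simp only [commutatorElement_def]; group
  rw [be, e, P.mul _ _ (C.comm_D _ _) (mul_mem (C.comm_D _ _) (C.comm_D _ _)),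
    P.mul _ _ (C.comm_D _ _) (C.comm_D _ _)]
  simp only [be, ga]
  abel

lemma be_symm (a b : C.N) : P.be b a = - P.be a b := by
  rw [be, ← commutatorElement_inv, P.inv (C.comm_D _ _), be]

lemma be_of_H {a b : C.N} (h : ((⁅a, b⁆ : C.N) : G) ∈ C.H) : P.be a b = 0 :=
  (P.zero _ (C.comm_D _ _)).2 h

lemma be_of_comm {a b : C.N} (h : a * b = b * a) : P.be a b = 0 := by
  rw [be, commutatorElement_eq_one_iff_mul_comm.2 h, P.one]

lemma be_ii (g h : C.H) : P.be (C.i g) (C.i h) = 0 := P.be_of_comm (C.i_comm g h)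

lemma be_K1_right {a k : C.N} (hk : (k : G) ∈ C.K1) : P.be a k = 0 :=
  P.be_of_comm (C.K1_comm hk).symm

lemma ga_of_K1 {a b c : C.N} (h : ((⁅b, c⁆ : C.N) : G) ∈ C.K1) : P.ga a b c = 0 :=
  P.be_K1_right h

lemma ga_K2_1 {a b c : C.N} (ha : (a : G) ∈ C.K2) : P.ga a b c = 0 :=
  P.be_of_comm (C.D_comm (C.comm_D _ _) ha).symm

lemma ga_K2_2 {a b c : C.N} (hb : (b : G) ∈ C.K2) : P.ga a b c = 0 :=
  P.ga_of_K1 (C.K2_K1 c hb)

lemma ga_K2_3 {a b c : C.N} (hc : (c : G) ∈ C.K2) : P.ga a b c = 0 :=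
  P.ga_of_K1 (C.K2_K1' b hc)

lemma be_mul_left_K2 {a b n : C.N} (hn : (n : G) ∈ C.K2) :
    P.be (a * b) n = P.be a n + P.be b n := by
  rw [be_mul_left, P.ga_K2_3 hn, add_zero]

lemma be_mul_right_K2 {a m n : C.N} (hn : (n : G) ∈ C.K2) :
    P.be a (m * n) = P.be a m + P.be a n := by
  rw [be_mul_right, P.ga_K2_3 hn, add_zero]

lemma be_mul_right_K2' {a m n : C.N} (hm : (m : G) ∈ C.K2) :
    P.be a (m * n) = P.be a m + P.be a n := by
  rw [be_mul_right, P.ga_K2_1 hm, add_zero]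

lemma be_inv_right_K2 {a n : C.N} (hn : (n : G) ∈ C.K2) :
    P.be a n⁻¹ = - P.be a n := by
  have := P.be_mul_right_K2 (a := a) (m := n⁻¹) hn
  rw [inv_mul_cancel, be, commutatorElement_one_right, P.one] at this
  exact eq_neg_of_add_eq_zero_left this.symm

lemma ga_mul1 (a b c d : C.N) : P.ga (a * b) c d = P.ga a c d + P.ga b c d :=
  P.be_mul_left_K2 (C.comm_K2 _ _)

lemma ga_mul2 (a b c d : C.N) : P.ga a (b * c) d = P.ga a b d + P.ga a c d := by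
  have e : ⁅b * c, d⁆ = ⁅b, ⁅c, d⁆⁆ * (⁅c, d⁆ * ⁅b, d⁆) := by
    simp only [commutatorElement_def]; group
  have h1 : P.ga a (b * c) d = P.be a ⁅b * c, d⁆ := rfl
  rw [h1, e, P.be_mul_right_K2' (C.comm_K2 _ _), P.be_mul_right_K2' (C.comm_K2 _ _),
    P.be_K1_right (C.K2_K1' _ (C.comm_K2 _ _)), zero_add, add_comm]
  rfl

lemma ga_symm (a b c : C.N) : P.ga a c b = - P.ga a b c := by
  have h1 : P.ga a c b = P.be a ⁅c, b⁆ := rfl
  rw [h1, ← commutatorElement_inv, P.be_inv_right_K2 (C.comm_K2 _ _)]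
  rfl

lemma ga_mul3 (a b c d : C.N) : P.ga a b (c * d) = P.ga a b c + P.ga a b d := by
  rw [ga_symm, ga_mul2, ga_symm P a b c, ga_symm P a b d]; abel

lemma ga_one1 (a b : C.N) : P.ga 1 a b = 0 := P.ga_K2_1 (one_mem _)
lemma ga_one2 (a b : C.N) : P.ga a 1 b = 0 := P.ga_K2_2 (one_mem _)
lemma ga_one3 (a b : C.N) : P.ga a b 1 = 0 := P.ga_K2_3 (one_mem _)

lemma ga_inv1 (a b c : C.N) : P.ga a⁻¹ b c = - P.ga a b c := by
  have := P.ga_mul1 a⁻¹ a b c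
  rw [inv_mul_cancel, P.ga_one1] at this
  exact eq_neg_of_add_eq_zero_left this.symm
lemma ga_inv2 (a b c : C.N) : P.ga a b⁻¹ c = - P.ga a b c := by
  have := P.ga_mul2 a b⁻¹ b c
  rw [inv_mul_cancel, P.ga_one2] at this
  exact eq_neg_of_add_eq_zero_left this.symm
lemma ga_inv3 (a b c : C.N) : P.ga a b c⁻¹ = - P.ga a b c := by
  have := P.ga_mul3 a b c⁻¹ c
  rw [inv_mul_cancel, P.ga_one3] at this
  exact eq_neg_of_add_eq_zero_left this.symm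

lemma ga_congr1 {a a' : C.N} (b c : C.N) (h : ((a⁻¹ * a' : C.N) : G) ∈ C.K2) :
    P.ga a b c = P.ga a' b c := by
  have e : a' = a * (a⁻¹ * a') := by group
  rw [e, ga_mul1, P.ga_K2_1 h, add_zero]
lemma ga_congr2 {b b' : C.N} (a c : C.N) (h : ((b⁻¹ * b' : C.N) : G) ∈ C.K2) :
    P.ga a b c = P.ga a b' c := by
  have e : b' = b * (b⁻¹ * b') := by group
  rw [e, ga_mul2, P.ga_K2_2 h, add_zero]
lemma ga_congr3 {c c' : C.N} (a b : C.N) (h : ((c⁻¹ * c' : C.N) : G) ∈ C.K2) :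
    P.ga a b c = P.ga a b c' := by
  have e : c' = c * (c⁻¹ * c') := by group
  rw [e, ga_mul3, P.ga_K2_3 h, add_zero]

/-- if `⁅a, b⁆ ∈ K1` then `γ` is symmetric in `a, b` -/
lemma ga_swap {a b : C.N} (c : C.N) (h : ((⁅a, b⁆ : C.N) : G) ∈ C.K1) :
    P.ga a b c = P.ga b a c := by
  have e : a * b = ⁅a, b⁆ * (b * a) := by simp only [commutatorElement_def]; group
  have h1 := P.be_mul_left a b c
  have h2 : P.be (a * b) c = P.be (b * a) c := by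
    rw [e, be_mul_left, P.ga_K2_1 (C.K1_le_K2 h), be_symm, P.be_K1_right h]
    simp
  rw [h2, be_mul_left] at h1
  have : P.be b c + P.be a c + P.ga b a c = P.be b c + P.be a c + P.ga a b c := by
    rw [h1]; abel
  exact (add_left_cancel this).symm

lemma ga_ii (a : C.N) (f g : C.H) : P.ga a (C.i f) (C.i g) = 0 := by
  rw [ga, C.i_comm', commutatorElement_one_right, P.one]

lemma ga_iswap (f g : C.H) (c : C.N) : P.ga (C.i f) (C.i g) c = P.ga (C.i g) (C.i f) c := by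
  apply P.ga_swap
  rw [C.i_comm']
  exact one_mem _

lemma ll_K1 (p q : C.QN) : ((⁅C.l p, C.l q⁆ : C.N) : G) ∈ C.K1 := C.LpLq p.2 q.2

lemma ga_ll (a : C.N) (p q : C.QN) : P.ga a (C.l p) (C.l q) = 0 := P.ga_of_K1 (ll_K1 p q)

lemma ga_lswap (p q : C.QN) (c : C.N) : P.ga (C.l p) (C.l q) c = P.ga (C.l q) (C.l p) c :=
  P.ga_swap c (ll_K1 p q)

/-- conjugation changes elements `l q` by `K2` -/
lemma cM_l (x : G) (q : C.QN) : (((C.l q)⁻¹ * C.cM x (C.l q) : C.N) : G) ∈ C.K2 :=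
  cen_cj (C.Lc2 q.2) x

lemma cM_congr (x : G) {a b : C.N} (h : ((a⁻¹ * b : C.N) : G) ∈ C.K2) :
    (((C.cM x a)⁻¹ * C.cM x b : C.N) : G) ∈ C.K2 := by
  rw [← C.cM_inv, ← C.cM_mul]
  exact cj_mem h

lemma ga_conj_l3 (a b : C.N) (x : G) (q : C.QN) : P.ga a b (C.cM x (C.l q)) = P.ga a b (C.l q) :=
  (P.ga_congr3 a b (cM_l x q)).symm
lemma ga_conj_l2 (a b : C.N) (x : G) (q : C.QN) : P.ga a (C.cM x (C.l q)) b = P.ga a (C.l q) b :=
  (P.ga_congr2 a b (cM_l x q)).symm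
lemma ga_conj_l1 (a b : C.N) (x : G) (q : C.QN) : P.ga (C.cM x (C.l q)) a b = P.ga (C.l q) a b :=
  (P.ga_congr1 a b (cM_l x q)).symm

/-- symmetry in the last two places -/
lemma ga_conj_swap (n : C.N) (f h : C.H) (x : G) :
    P.ga n (C.i f) (C.cM x (C.i h)) = P.ga n (C.i h) (C.cM x (C.i f)) := by
  have h0 : P.ga n (C.cM x⁻¹ (C.i (C.br f x))) (C.cM x⁻¹ (C.i (C.br h x))) = 0 := by
    rw [ga, ← C.cM_comm, C.i_comm', C.cM_one, commutatorElement_one_right, P.one]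
  have e : ∀ s : C.H, C.cM x⁻¹ (C.i (C.br s x)) = (C.cM x⁻¹ (C.l (C.hat s x)))⁻¹ * C.i s := by
    intro s
    have h1 : C.i (C.br s x) = (C.l (C.hat s x))⁻¹ * C.cM x (C.i s) := by
      rw [C.cM_i]; group
    rw [h1, C.cM_mul, C.cM_cM, mul_inv_cancel, C.one_cM, C.cM_inv]
  rw [e, e, ga_mul2, ga_mul3, ga_mul3, ga_inv2, ga_inv3, ga_inv2, ga_inv3, ga_ii,
    ga_conj_l2, ga_conj_l3, ga_ll, ga_conj_l2, ga_conj_l3, ga_symm] at h0
  rw [C.cM_i, ga_mul3, ga_ii, C.cM_i, ga_mul3, ga_ii]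
  simp only [neg_neg, neg_zero, add_zero, zero_add] at h0 ⊢
  rw [← sub_eq_add_neg, sub_eq_zero] at h0
  exact h0.symm

/-- the basic function -/
def CC (g f h : C.H) (w : G) : E := P.ga (C.i g) (C.i f) (C.cM w (C.i h))

lemma ga_i_cM (n : C.N) (f h : C.H) (w : G) :
    P.ga n (C.i f) (C.cM w (C.i h)) = P.ga n (C.i f) (C.l (C.hat h w)) := by
  rw [C.cM_i, ga_mul3, ga_ii, add_zero]

lemma CC_l (g f h : C.H) (w : G) :
    P.CC g f h w = P.ga (C.i g) (C.i f) (C.l (C.hat h w)) := P.ga_i_cM _ _ _ _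

lemma CC_12 (g f h : C.H) (w : G) : P.CC g f h w = P.CC f g h w := P.ga_iswap g f _

lemma CC_23 (g f h : C.H) (w : G) : P.CC g f h w = P.CC g h f w := P.ga_conj_swap _ f h w

lemma CC_13 (g f h : C.H) (w : G) : P.CC g f h w = P.CC h f g w := by
  rw [P.CC_12, P.CC_23, P.CC_12]

lemma CC_mul1 (g g' f h : C.H) (w : G) : P.CC (g * g') f h w = P.CC g f h w + P.CC g' f h w := by
  rw [CC, C.i_mul, ga_mul1]; rfl
lemma CC_mul2 (g f f' h : C.H) (w : G) : P.CC g (f * f') h w = P.CC g f h w + P.CC g f' h w := by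
  rw [CC, C.i_mul, ga_mul2]; rfl
lemma CC_mul3 (g f h h' : C.H) (w : G) : P.CC g f (h * h') w = P.CC g f h w + P.CC g f h' w := by
  rw [CC, C.i_mul, C.cM_mul, ga_mul3]; rfl
lemma CC_inv1 (g f h : C.H) (w : G) : P.CC g⁻¹ f h w = - P.CC g f h w := by
  rw [CC, C.i_inv, ga_inv1]; rfl
lemma CC_inv2 (g f h : C.H) (w : G) : P.CC g f⁻¹ h w = - P.CC g f h w := by
  rw [CC, C.i_inv, ga_inv2]; rfl
lemma CC_inv3 (g f h : C.H) (w : G) : P.CC g f h⁻¹ w = - P.CC g f h w := by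
  rw [CC, C.i_inv, C.cM_inv, ga_inv3]; rfl
lemma CC_one1 (f h : C.H) (w : G) : P.CC 1 f h w = 0 := P.ga_one1 _ _
lemma CC_one2 (g h : C.H) (w : G) : P.CC g 1 h w = 0 := P.ga_one2 _ _
lemma CC_one3 (g f : C.H) (w : G) : P.CC g f 1 w = 0 := by
  rw [CC, C.i_one, C.cM_one, ga_one3]

lemma CC_K2_1 {g : C.H} (f h : C.H) (w : G) (hg : (g : G) ∈ C.K2) : P.CC g f h w = 0 :=
  P.ga_K2_1 hg
lemma CC_K2_2 {f : C.H} (g h : C.H) (w : G) (hf : (f : G) ∈ C.K2) : P.CC g f h w = 0 :=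
  P.ga_K2_2 hf
lemma CC_K2_3 {h : C.H} (g f : C.H) (w : G) (hh : (h : G) ∈ C.K2) : P.CC g f h w = 0 := by
  rw [CC_23]; exact P.CC_K2_2 _ _ _ hh

lemma CC_congr3 {h h' : C.H} (g f : C.H) (w : G) (hh : ((h⁻¹ * h' : C.H) : G) ∈ C.K2) :
    P.CC g f h w = P.CC g f h' w := by
  have e : h' = h * (h⁻¹ * h') := by group
  rw [e, CC_mul3, P.CC_K2_3 _ _ _ hh, add_zero]
lemma CC_congr2 {h h' : C.H} (g f : C.H) (w : G) (hh : ((h⁻¹ * h' : C.H) : G) ∈ C.K2) :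
    P.CC g h f w = P.CC g h' f w := by
  rw [CC_23, P.CC_congr3 g f w hh, CC_23]

lemma CC_N {w w' : G} (g f h : C.H) (hw : w⁻¹ * w' ∈ C.N) : P.CC g f h w = P.CC g f h w' := by
  have e : C.cM w' (C.i h) = C.cM w (C.i h) * ⁅(C.cM w (C.i h))⁻¹, (⟨w⁻¹ * w', hw⟩ : C.N)⁻¹⁆ := by
    apply Subtype.ext
    simp only [C.cM_coe, cj, commutatorElement_def, Subgroup.coe_mul, Subgroup.coe_inv]
    group
  rw [CC, CC, e, ga_mul3, P.ga_K2_3 (C.comm_K2 _ _), add_zero]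

lemma CC_comm (g f h : C.H) (w v : G) : P.CC g f h (w * v) = P.CC g f h (v * w) := by
  apply P.CC_N
  have e : (w * v)⁻¹ * (v * w) = ⁅v⁻¹, w⁻¹⁆ := by simp only [commutatorElement_def]; group
  rw [e]; exact C.GN _ _

lemma CC_NN {n : G} (g f h : C.H) (w v : G) (hn : n ∈ C.N) :
    P.CC g f h (w * n * v) = P.CC g f h (w * v) := by
  apply P.CC_N
  have e : (w * n * v)⁻¹ * (w * v) = cj v n⁻¹ := by simp only [cj]; group
  rw [e]; exact cj_mem (inv_mem hn)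

lemma CC_Nr {n : G} (g f h : C.H) (w : G) (hn : n ∈ C.N) :
    P.CC g f h (w * n) = P.CC g f h w := by
  have := P.CC_NN g f h w 1 hn
  simpa using this

lemma CC_wone (g f h : C.H) : P.CC g f h 1 = 0 := by
  rw [CC, C.one_cM, ga_ii]

lemma CC_wN {n : G} (g f h : C.H) (hn : n ∈ C.N) : P.CC g f h n = 0 := by
  have := P.CC_Nr g f h 1 hn
  rw [one_mul] at this
  rw [this, CC_wone]

/-- the function at bracket arguments -/
lemma CC_br (g f h : C.H) (z w : G) :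
    P.CC g f (C.br h z) w = P.CC g f h (z * w) - P.CC g f h z := by
  have e : P.CC g f h (z * w) = P.ga (C.i g) (C.i f) (C.cM w (C.l (C.hat h z) * C.i (C.br h z))) := by
    rw [← C.cM_i, C.cM_cM]; rfl
  rw [e, C.cM_mul, ga_mul3, ga_conj_l3, ← CC_l]
  simp only [CC]; abel

lemma ga_G1 (f h s : C.H) (w v : G) :
    P.ga (C.i f) (C.cM w (C.i h)) (C.cM v (C.i s)) = P.CC f h s v - P.CC f h s w := by
  rw [C.cM_i h w, ga_mul2, C.cM_i s v, ga_mul3, ga_ll, zero_add, ga_symm, ← CC_l, ← C.cM_i s v]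
  have : P.ga (C.i f) (C.i (C.br h w)) (C.cM v (C.i s)) = P.CC f (C.br h w) s v := rfl
  rw [this, P.CC_23 f (C.br h w), P.CC_br, P.CC_23 f (C.br s v), P.CC_br, P.CC_23 f s h, P.CC_23 f s h, P.CC_comm f h s w v]
  abel

end Ep

end Pool.Agent.W2helper28.AIM
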