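import Pool.Agent.W2helper28.AIM.Sec1

/-!
The action of the whole group on commutators `⁅g, n⁆`, `g ∈ H`, `n ∈ N ∩ K2`.
-/

set_option autoImplicit false

namespace Pool.Agent.W2helper28.AIM

open Subgroup
open scoped commutatorElement

lemma comm_mul_right_eq {M : Type*} [Group M] {a b c : M} (h : a * c = c * a) :
    ⁅a, b * c⁆ = ⁅a, b⁆ := by
  have e : ⁅a, b * c⁆ = ⁅a, b⁆ * (b * ⁅a, c⁆ * b⁻¹) := by
    simp only [commutatorElement_def]; group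
  rw [e, commutatorElement_eq_one_iff_mul_comm.2 h]; group

lemma comm_mul_left_eq {M : Type*} [Group M] {a b c : M} (h : a * c = c * a)
    (h' : a * ⁅b, c⁆ = ⁅b, c⁆ * a) : ⁅a * b, c⁆ = ⁅b, c⁆ := by
  have e : ⁅a * b, c⁆ = (a * ⁅b, c⁆) * a⁻¹ * ⁅a, c⁆ := by
    simp only [commutatorElement_def]; group
  rw [e, commutatorElement_eq_one_iff_mul_comm.2 h, h']; group

namespace Cfg

variable {G Q : Type*} [Group G] (C : Cfg G Q)

lemma decM {n : C.N} (hn : (n : G) ∈ C.K2) : ∃ u : C.QN, ∃ k : C.H, C.L u.1 ∈ C.K2 ∧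
    n = C.l u * C.i k := by
  obtain ⟨u, k, hkH, hk2, hu2, hu, e⟩ := C.dec hn
  have huN : C.L u ∈ C.N := by
    have e1 : C.L u = n * k⁻¹ := by rw [e]; group
    rw [e1]; exact mul_mem n.2 (inv_mem (C.HN hkH))
  exact ⟨⟨u, huN⟩, ⟨k, hkH⟩, hu2, Subtype.ext e⟩

lemma lu_lq {u : C.QN} (hu : C.L u.1 ∈ C.K2) (q : C.QN) : C.l u * C.l q = C.l q * C.l u :=
  Subtype.ext (C.LuLq hu q.2)

lemma cM_lu {u : C.QN} (hu : C.L u.1 ∈ C.K2) (x : G) :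
    (((C.l u)⁻¹ * C.cM x (C.l u) : C.N) : G) ∈ C.K1 := cen_cj (C.Lc1 hu) x

lemma K0 (g : C.H) {n : C.N} (hn : (n : G) ∈ C.K2) (x : G) :
    C.cM x ⁅C.i g, n⁆ = ⁅C.i (C.br g x), n⁆ := by
  obtain ⟨u, k, hu, rfl⟩ := C.decM hn
  rw [comm_mul_right_eq (C.i_comm g k), comm_mul_right_eq (C.i_comm _ k), C.cM_comm]
  have e : C.cM x (C.l u) = C.l u * ((C.l u)⁻¹ * C.cM x (C.l u)) := by group
  rw [e, comm_mul_right_eq (C.K1_comm (C.cM_lu hu x)).symm, C.cM_i,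
    comm_mul_left_eq (C.lu_lq hu _).symm (C.K1_comm (C.K2_K1' _ hu)).symm]

/-- conjugation difference of `l q` -/
def jj (q : C.QN) (x : G) : C.N := (C.l q)⁻¹ * C.cM x (C.l q)

lemma jj_K2 (q : C.QN) (x : G) : ((C.jj q x : C.N) : G) ∈ C.K2 := cen_cj (C.Lc2 q.2) x

lemma cM_l (q : C.QN) (x : G) : C.cM x (C.l q) = C.l q * C.jj q x := by
  simp only [jj]; group

lemma jj_R (q : C.QN) (t : Q) : C.jj q (C.R t) = C.i (C.mm q.1 t) := by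
  apply Subtype.ext
  simp only [jj, mm, i, l, Subgroup.coe_mul, Subgroup.coe_inv, cM_coe, cj, m]
  group

lemma cM_jj (q : C.QN) (x y : G) : C.cM y (C.jj q x) = (C.jj q y)⁻¹ * C.jj q (x * y) := by
  have e : C.cM y (C.jj q x) = (C.cM y (C.l q))⁻¹ * C.cM (x * y) (C.l q) := by
    rw [jj, C.cM_mul, C.cM_inv, C.cM_cM]
  rw [e]
  simp only [jj]; group

lemma jj_dec (q : C.QN) (x : G) :
    C.jj q x = ⁅(C.l q)⁻¹, (C.i (C.sg x))⁻¹⁆ * C.i (C.mm q.1 (C.pt x)) := by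
  have h := C.pt_sg x
  have e1 : C.cM x (C.l q) = C.cM (C.i (C.sg x)) (C.cM (C.R (C.pt x)) (C.l q)) := by
    rw [C.cM_cM]; congr 1; exact h.symm
  rw [jj, e1, C.cM_l q (C.R (C.pt x)), C.jj_R, C.cM_mul, C.cM_N, C.cM_N]
  have e2 : (C.i (C.sg x))⁻¹ * C.i (C.mm q.1 (C.pt x)) * C.i (C.sg x) =
      C.i (C.mm q.1 (C.pt x)) := by
    rw [mul_assoc, C.i_comm]; group
  rw [e2]
  simp only [commutatorElement_def]; group

lemma mm_comm (q : C.QN) (t : Q) {n : C.N} (hn : (n : G) ∈ C.K2) :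
    C.i (C.mm q.1 t) * n = n * C.i (C.mm q.1 t) := by
  obtain ⟨u, k, hu, rfl⟩ := C.decM hn
  have h1 : C.i (C.mm q.1 t) * C.l u = C.l u * C.i (C.mm q.1 t) := by
    rw [← C.jj_R, jj]
    set z := (C.l u)⁻¹ * C.cM (C.R t) (C.l u) with hz
    have hzc : (z : G) ∈ C.K1 := C.cM_lu hu _
    have e : C.cM (C.R t) (C.l u) = C.l u * z := by rw [hz]; group
    have h2 := congrArg (C.cM (C.R t)) (C.lu_lq hu q)
    rw [C.cM_mul, C.cM_mul, e] at h2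
    have h3 : C.l u * C.cM (C.R t) (C.l q) = C.cM (C.R t) (C.l q) * C.l u := by
      have h4 : C.l u * C.cM (C.R t) (C.l q) * z = C.cM (C.R t) (C.l q) * C.l u * z := by
        rw [mul_assoc (C.l u), ← C.K1_comm hzc, ← mul_assoc, h2, mul_assoc]
      exact mul_right_cancel h4
    have h5 : (C.l q)⁻¹ * C.l u = C.l u * (C.l q)⁻¹ := by
      rw [inv_mul_eq_iff_eq_mul, ← mul_assoc, ← C.lu_lq hu q]; group
    rw [mul_assoc, ← h3, ← mul_assoc, h5, mul_assoc]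
  rw [← mul_assoc, h1, mul_assoc, mul_assoc, C.i_comm]

lemma jj_comm (q : C.QN) (x : G) {n : C.N} (hn : (n : G) ∈ C.K2) :
    C.jj q x * n = n * C.jj q x := by
  rw [C.jj_dec, mul_assoc, C.mm_comm q _ hn, ← mul_assoc, C.D_comm (C.comm_D _ _) hn, mul_assoc]

lemma kk_K2 (q : C.QN) : ((C.i (C.kk q.1) : C.N) : G) ∈ C.K2 := C.kc2 q.2

lemma sg_eq {a : Q} {h : C.H} {x : G} (e : x = C.R a * h) : ((h⁻¹ * C.sg x : C.H) : G) ∈ C.K2 := by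
  have h1 := C.pt_sg x
  have e2 : ((h⁻¹ * C.sg x : C.H) : G) = (C.sg x : G) * (h : G)⁻¹ := by
    rw [← Subgroup.coe_inv, ← Subgroup.coe_mul]
    congr 1
    exact Subtype.ext (C.mulH (inv_mem h.2) (C.sg x).2)
  have e3 : (C.sg x : G) * (h : G)⁻¹ = (C.R (C.pt x))⁻¹ * C.R a := by
    have e4 : (C.sg x : G) = (C.R (C.pt x))⁻¹ * x := by rw [eq_inv_mul_iff_mul_eq]; exact h1
    rw [e4, e]; group
  have h2 : (C.R (C.pt x))⁻¹ * C.R a ∈ C.H := by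
    rw [← e3]; exact mul_mem (C.sg x).2 (inv_mem h.2)
  rw [e2, e3]
  exact C.HcK C.P2 h2 (C.LC (C.HN h2))

lemma kk_congr {p p' : Q} (h : (C.L p)⁻¹ * C.L p' ∈ C.N) :
    (((C.kk p)⁻¹ * C.kk p' : C.H) : G) ∈ C.K2 := by
  have h1 : (C.L p)⁻¹ * C.L p' ∈ cen C.K2 := C.op.LC h
  have h2 : (C.R p)⁻¹ * C.R p' ∈ cen C.K2 := by
    apply C.LC
    have e : (C.R p)⁻¹ * C.R p' = C.k p * ((C.L p)⁻¹ * C.L p') * (C.k p')⁻¹ := by
      simp only [k]; group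
    rw [e]
    exact mul_mem (mul_mem (C.HN (C.kH _)) h) (inv_mem (C.HN (C.kH _)))
  apply C.HcK C.P2 ((C.kk p)⁻¹ * C.kk p').2
  have e : (((C.kk p)⁻¹ * C.kk p' : C.H) : G) =
      cj (C.k p) ((C.R p)⁻¹ * C.R p')⁻¹ * ((C.L p)⁻¹ * C.L p') := by
    simp only [kk, k, cj, Subgroup.coe_mul, Subgroup.coe_inv]; group
  rw [e]
  exact mul_mem (cj_mem (inv_mem h2)) h1

end Cfg

namespace Ep

variable {G Q : Type*} [Group G] {C : Cfg G Q} {E : Type*} [AddCommGroup E] (P : Ep C E)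

lemma be_K0 (g : C.H) {n : C.N} (hn : (n : G) ∈ C.K2) (x : G) :
    P.ep (C.cM x ⁅C.i g, n⁆) = P.be (C.i (C.br g x)) n := by
  rw [C.K0 g hn x]; rfl

lemma cM_K2 {n : C.N} (hn : (n : G) ∈ C.K2) (x : G) : ((C.cM x n : C.N) : G) ∈ C.K2 := cj_mem hn

/-- (K2) -/
lemma be_K2' (g : C.H) {n : C.N} (hn : (n : G) ∈ C.K2) (x : G) :
    P.be (C.l (C.hat g x)) n = P.be (C.i g) n - P.be (C.i g) (C.cM x n) := by
  have e1 : C.i g = C.l (C.hat g x) * C.jj (C.hat g x) x⁻¹ * C.cM x⁻¹ (C.i (C.br g x)) := by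
    rw [← C.cM_l, ← C.cM_mul, ← C.cM_i, C.cM_cM, mul_inv_cancel, C.one_cM]
  have e2 : P.be (C.i g) n = P.be (C.l (C.hat g x)) n + P.be (C.cM x⁻¹ (C.i (C.br g x))) n := by
    conv_lhs => rw [e1]
    rw [P.be_mul_left_K2 hn, P.be_mul_left_K2 hn, P.be_of_comm (C.jj_comm _ _ hn), add_zero]
  have e3 : P.be (C.cM x⁻¹ (C.i (C.br g x))) n = P.be (C.i g) (C.cM x n) := by
    have h1 : ⁅C.cM x⁻¹ (C.i (C.br g x)), n⁆ = C.cM x⁻¹ ⁅C.i (C.br g x), C.cM x n⁆ := by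
      rw [C.cM_comm, C.cM_cM, mul_inv_cancel, C.one_cM]
    rw [be, h1, ← C.K0 g (cM_K2 hn x) x, C.cM_cM, mul_inv_cancel, C.one_cM]
    rfl
  rw [e2, e3]; abel

lemma be_hat_mul (g : C.H) {n : C.N} (hn : (n : G) ∈ C.K2) (x w : G) :
    P.be (C.i (C.br g x)) (C.cM w n) - P.be (C.i (C.br g x)) n =
      P.be (C.i g) (C.cM (x * w) n) - P.be (C.i g) (C.cM x n) := by
  have hbr : P.be (C.i (C.br (C.br g x) w)) n = P.be (C.i (C.br g (x * w))) n := by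
    rw [be, be, ← C.K0 _ hn, ← C.K0 _ hn, ← C.K0 _ hn, C.cM_cM]
  have h1 : P.be (C.cM (x * w) (C.i g)) n =
      P.be (C.l (C.hat g (x * w))) n + P.be (C.i (C.br g (x * w))) n := by
    rw [C.cM_i, P.be_mul_left_K2 hn]
  have h2 : P.be (C.cM (x * w) (C.i g)) n = P.be (C.l (C.hat g x)) n +
      (P.be (C.l (C.hat (C.br g x) w)) n + P.be (C.i (C.br (C.br g x) w)) n) := by
    rw [← C.cM_cM, C.cM_i, C.cM_mul, C.cM_l, C.cM_i, P.be_mul_left_K2 hn, P.be_mul_left_K2 hn,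
      P.be_mul_left_K2 hn, P.be_of_comm (C.jj_comm _ _ hn), add_zero]
  rw [h1, P.be_K2' g hn, P.be_K2' g hn, P.be_K2' _ hn, hbr] at h2
  rw [← sub_eq_zero] at h2 ⊢
  rw [← h2]
  abel

/-- (J) -/
lemma be_jj (g : C.H) (q : C.QN) (x : G) :
    P.be (C.i g) (C.jj q x) = - P.ga (C.i g) (C.i (C.sg x)) (C.l q) := by
  rw [C.jj_dec, P.be_mul_right_K2' (C.comm_K2 _ _), P.be_ii, add_zero, be_D, ga_inv2, ga_inv3,
    neg_neg, ga_symm]

lemma ga_sg2 {a : Q} {h : C.H} {x : G} (n n' : C.N) (e : x = C.R a * h) :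
    P.ga n (C.i (C.sg x)) n' = P.ga n (C.i h) n' :=
  (P.ga_congr2 n n' (C.sg_eq e)).symm

lemma be_mm (g : C.H) (q : C.QN) (t : Q) (x : G) :
    P.be (C.i g) (C.cM x (C.i (C.mm q.1 t))) =
      P.ga (C.i g) (C.i (C.sg x)) (C.l q) - P.ga (C.i g) (C.i (C.sg (C.R t * x))) (C.l q) := by
  rw [← C.jj_R, C.cM_jj, P.be_mul_right_K2 (C.jj_K2 _ _), P.be_inv_right_K2 (C.jj_K2 _ _),
    P.be_jj, P.be_jj]
  abel

/-- second difference of `C` -/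
def Dt (g f h : C.H) (x y : G) : E := P.CC g f h (x * y) - P.CC g f h x - P.CC g f h y

lemma Dt_symm (g f h : C.H) (x y : G) : P.Dt g f h x y = P.Dt g f h y x := by
  simp only [Dt, P.CC_comm g f h x y]; abel
lemma Dt_12 (g f h : C.H) (x y : G) : P.Dt g f h x y = P.Dt f g h x y := by
  simp only [Dt, P.CC_12 g f h]
lemma Dt_23 (g f h : C.H) (x y : G) : P.Dt g f h x y = P.Dt g h f x y := by
  simp only [Dt, P.CC_23 g f h]
lemma Dt_13 (g f h : C.H) (x y : G) : P.Dt g f h x y = P.Dt h f g x y := by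
  rw [Dt_12, Dt_23, Dt_12]

/-- (4.2) -/
lemma ga_lil (g f h : C.H) (x y : G) :
    P.ga (C.l (C.hat g x)) (C.i f) (C.l (C.hat h y)) = - P.Dt g f h x y := by
  rw [← P.ga_i_cM]
  have h1 : P.ga (C.l (C.hat g x)) (C.i f) (C.cM y (C.i h)) =
      P.be (C.l (C.hat g x)) ⁅C.i f, C.cM y (C.i h)⁆ := rfl
  rw [h1, P.be_K2' g (C.comm_K2 _ _), C.cM_comm, C.cM_cM, be_D, be_D, P.ga_G1, Dt,
    P.CC_comm g f h y x]
  simp only [CC]; abel

lemma ga_rt3 (a b : C.N) (q : C.QN) : P.ga a b (C.rt q) = P.ga a b (C.l q) := by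
  rw [C.l_eq, ga_mul3, P.ga_K2_3 (C.kk_K2 q), add_zero]

lemma be_jj_op (g : C.H) (q : C.QN) (x : G) :
    P.be (C.i g) ((C.rt q)⁻¹ * C.cM x (C.rt q)) = - P.ga (C.i g) (C.i (C.hp x)) (C.l q) := by
  have h1 := P.op.be_jj g ⟨q.1, C.RN q.2⟩ x
  have h2 : P.be (C.i g) ((C.rt q)⁻¹ * C.cM x (C.rt q)) =
      - P.ga (C.i g) (C.i (C.op.sg x)) (C.rt q) := h1
  rw [h2, ga_rt3]
  congr 1
  exact P.op.ga_sg2 (a := C.pt x) (h := C.hp x) (x := x) _ _ (C.pt_hp x).symm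

lemma rt_c2 (q : C.QN) (x : G) : (((C.rt q)⁻¹ * C.cM x (C.rt q) : C.N) : G) ∈ C.K2 :=
  cen_cj (C.Rc2 q.2) x

/-- (4.3) -/
lemma be_kk (g : C.H) (q : C.QN) (x : G) :
    P.be (C.i g) (C.cM x (C.i (C.kk q.1))) = - P.ga (C.i g) (C.i (C.kk (C.pt x))) (C.l q) := by
  have e : C.cM x (C.i (C.kk q.1)) =
      ((C.rt q)⁻¹ * C.cM x (C.rt q))⁻¹ * (C.i (C.kk q.1) * C.jj q x) := by
    have e1 : C.i (C.kk q.1) = (C.rt q)⁻¹ * C.l q := by rw [C.l_eq]; group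
    rw [e1, C.cM_mul, C.cM_inv, Cfg.jj]; group
  rw [e, P.be_mul_right_K2' (inv_mem (rt_c2 q x)), P.be_inv_right_K2 (rt_c2 q x), be_jj_op,
    P.be_mul_right_K2' (C.kk_K2 q), P.be_ii, be_jj]
  have e2 : C.i (C.sg x) = C.i (C.kk (C.pt x)) * C.i (C.hp x) := rfl
  rw [e2, ga_mul2]
  abel

lemma be_l_rt (p q : C.QN) : P.be (C.l p) (C.rt q) = 0 := by
  apply P.be_of_H
  have : ((⁅C.l p, C.rt q⁆ : C.N) : G) = C.m p.1 q.1 := C.LpRq p.2 q.2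
  rw [this]
  exact C.mH _ _

lemma be_hat_l (g : C.H) (x : G) (q : C.QN) :
    P.be (C.l (C.hat g x)) (C.l q) = P.ga (C.i g) (C.i (C.kk (C.pt x))) (C.l q) := by
  have h1 : P.be (C.l (C.hat g x)) (C.l q) =
      P.be (C.l (C.hat g x)) (C.rt q * C.i (C.kk q.1)) := by rw [← C.l_eq]
  rw [h1, P.be_mul_right_K2 (C.kk_K2 q), be_l_rt, zero_add, P.be_K2' g (C.kk_K2 q), P.be_ii,
    be_kk]
  abel

end Ep

end Pool.Agent.W2helper28.AIM
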