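import Pool.Agent.W2helper28.AIM.Sec2

/-!
The trilinear function `T` and the function `k`.
-/

set_option autoImplicit false

namespace Pool.Agent.W2helper28.AIM

open Subgroup
open scoped commutatorElement

namespace Cfg

variable {G Q : Type*} [Group G] (C : Cfg G Q)

lemma R_mul_comm_N (a b : Q) : (C.R (C.mul a b))⁻¹ * C.R (C.mul b a) ∈ C.N := by
  have e : (C.R (C.mul a b))⁻¹ * C.R (C.mul b a) =
      C.r a b * (C.R b * C.R a)⁻¹ * ((C.R a * C.R b) * (C.r b a)⁻¹) := by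
    simp only [r]; group
  rw [e]
  have e2 : C.r a b * (C.R b * C.R a)⁻¹ * ((C.R a * C.R b) * (C.r b a)⁻¹) =
      C.r a b * ⁅(C.R a)⁻¹, (C.R b)⁻¹⁆ * (C.r b a)⁻¹ := by
    simp only [commutatorElement_def]; group
  rw [e2]
  exact mul_mem (mul_mem (C.HN (C.rH _ _)) (C.GN _ _)) (inv_mem (C.HN (C.rH _ _)))

lemma L_mul_comm_N (a b : Q) : (C.L (C.mul a b))⁻¹ * C.L (C.mul b a) ∈ C.N :=
  C.op.R_mul_comm_N b a

lemma rr_congr {a a' : Q} (t : Q) (h : (C.R a)⁻¹ * C.R a' ∈ C.N) :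
    (((C.rr a t)⁻¹ * C.rr a' t : C.H) : G) ∈ C.K2 := by
  have hc := C.LC h
  set c := (C.R a)⁻¹ * C.R a' with hcdef
  have hV : (C.R (C.mul a t))⁻¹ * C.R (C.mul a' t) = C.r a t * c * (C.r a' t)⁻¹ := by
    simp only [r, hcdef]; group
  have hVc : C.r a t * c * (C.r a' t)⁻¹ ∈ cen C.K2 := by
    rw [← hV]
    apply C.LC
    rw [hV]
    exact mul_mem (mul_mem (C.HN (C.rH _ _)) h) (inv_mem (C.HN (C.rH _ _)))
  apply C.HcK C.P2 ((C.rr a t)⁻¹ * C.rr a' t).2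
  have e : (((C.rr a t)⁻¹ * C.rr a' t : C.H) : G) =
      cj (C.r a t) (C.r a t * c * (C.r a' t)⁻¹)⁻¹ * c := by
    simp only [rr, cj, Subgroup.coe_mul, Subgroup.coe_inv]; group
  rw [e]
  exact mul_mem (cj_mem (inv_mem hVc)) hc

/-- cocycle property -/
lemma br_rr (a b t : Q) : (((C.br (C.rr b t) (C.R a))⁻¹ *
    ((C.rr a (C.mul b t))⁻¹ * C.rr (C.mul a b) t * C.rr a b) : C.H) : G) ∈ C.K2 := by
  set y := C.br (C.rr b t) (C.R a) with hy
  set q := C.hat (C.rr b t) (C.R a) with hq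
  have h1 : cj (C.R a) (C.r b t) = C.L q.1 * (y : G) :=
    congrArg (fun z : C.N => (z : G)) (C.cM_i (C.rr b t) (C.R a))
  have hW : (C.R (C.mul a (C.mul b t)))⁻¹ * C.R (C.mul (C.mul a b) t) =
      C.r a (C.mul b t) * (C.L q.1 * (y : G)) * (C.r a b)⁻¹ * (C.r (C.mul a b) t)⁻¹ := by
    rw [← h1]; simp only [r, cj]; group
  have hWN : (C.R (C.mul a (C.mul b t)))⁻¹ * C.R (C.mul (C.mul a b) t) ∈ C.N := by
    rw [hW]
    exact mul_mem (mul_mem (mul_mem (C.HN (C.rH _ _)) (mul_mem q.2 (C.HN y.2)))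
      (inv_mem (C.HN (C.rH _ _)))) (inv_mem (C.HN (C.rH _ _)))
  have hWc := C.LC hWN
  rw [hW] at hWc
  have hq2 := C.Lc2 q.2
  apply C.HcK C.P2 (SetLike.coe_mem _)
  have e : ((y⁻¹ * ((C.rr a (C.mul b t))⁻¹ * C.rr (C.mul a b) t * C.rr a b) : C.H) : G) =
      cj (C.r (C.mul a b) t * C.r a b)
        ((C.r a (C.mul b t) * (C.L q.1 * (y : G)) * (C.r a b)⁻¹ * (C.r (C.mul a b) t)⁻¹)⁻¹ *
          (C.r a (C.mul b t) * C.L q.1 * (C.r a (C.mul b t))⁻¹)) := by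
    simp only [rr, cj, Subgroup.coe_mul, Subgroup.coe_inv]; group
  rw [e]
  exact cj_mem (mul_mem (inv_mem hWc) ((cen_normal C.K2).conj_mem _ hq2 _))

lemma H_ind {p : C.H → Prop} (hk : ∀ a, p (C.kk a)) (ht : ∀ a b, p (C.tt a b))
    (hr : ∀ a b, p (C.rr a b)) (h1 : p 1) (hm : ∀ x y, p x → p y → p (x * y))
    (hi : ∀ x, p x → p x⁻¹) (h : C.H) : p h := by
  have key : ∀ x ∈ closure ({x | ∃ a, x = (C.R a)⁻¹ * C.L a} ∪
      {x | ∃ a b, x = (C.L (C.mul a b))⁻¹ * (C.L a * C.L b)} ∪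
      {x | ∃ a b, x = (C.R (C.mul a b))⁻¹ * (C.R b * C.R a)}), ∃ hx : x ∈ C.H, p ⟨x, hx⟩ := by
    intro x hx
    induction hx using Subgroup.closure_induction with
    | mem x hx =>
      rcases hx with (⟨a, rfl⟩ | ⟨a, b, rfl⟩) | ⟨a, b, rfl⟩
      · exact ⟨C.kH a, hk a⟩
      · exact ⟨C.tH a b, ht a b⟩
      · exact ⟨C.rH a b, hr a b⟩
    | one => exact ⟨one_mem _, h1⟩
    | mul x y _ _ hx hy =>
      obtain ⟨hx, px⟩ := hx
      obtain ⟨hy, py⟩ := hy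
      exact ⟨mul_mem hx hy, hm _ _ px py⟩
    | inv x _ hx =>
      obtain ⟨hx, px⟩ := hx
      exact ⟨inv_mem hx, hi _ px⟩
  obtain ⟨_, hp⟩ := key h (C.gen h.2)
  exact hp

/-- `(R a R b)⁻¹ R b R a` -/
def cc (a b : Q) : C.N := ⟨(C.R a * C.R b)⁻¹ * (C.R b * C.R a), by
  have e : (C.R a * C.R b)⁻¹ * (C.R b * C.R a) = ⁅(C.R b)⁻¹, (C.R a)⁻¹⁆ := by
    simp only [commutatorElement_def]; group
  rw [e]; exact C.GN _ _⟩

lemma cc_inv (a b : Q) : C.cc b a = (C.cc a b)⁻¹ := by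
  apply Subtype.ext
  simp only [cc, Subgroup.coe_inv]; group

lemma cM_kk (a b : Q) : C.cM (C.R b) (C.i (C.kk a)) = C.cc a b * C.i (C.kk a) * C.i (C.mm a b) := by
  apply Subtype.ext
  simp only [cc, cM_coe, i, kk, mm, cj, k, m, Subgroup.coe_mul]; group

lemma cM_kk_self (a : Q) : C.cM (C.L a) (C.i (C.kk a)) = C.i (C.mm a a) * C.i (C.kk a) := by
  apply Subtype.ext
  simp only [cM_coe, i, kk, mm, cj, k, m, Subgroup.coe_mul]; group

lemma kk_mul (a b : Q) : C.kk (C.mul a b) =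
    C.kk a * C.kk b * C.rr a b * C.mm a b * (C.tt a b)⁻¹ := by
  have h : C.mm a b = (C.kk a)⁻¹ * (C.rr a b)⁻¹ * C.kk (C.mul a b) * C.tt a b * (C.kk b)⁻¹ :=
    Subtype.ext (C.m_eq a b)
  have hcomm : ∀ x y : C.H, x * y = y * x := fun x y => Subtype.ext (C.mulH x.2 y.2)
  rw [h]
  have e1 : C.kk a * C.kk b * C.rr a b * ((C.kk a)⁻¹ * (C.rr a b)⁻¹ * C.kk (C.mul a b) *
      C.tt a b * (C.kk b)⁻¹) * (C.tt a b)⁻¹ = C.kk a * C.kk b * (C.rr a b * ((C.kk a)⁻¹ *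
      (C.rr a b)⁻¹)) * C.kk (C.mul a b) * (C.tt a b * (C.kk b)⁻¹) * (C.tt a b)⁻¹ := by
    group
  rw [e1, hcomm (C.kk a)⁻¹ (C.rr a b)⁻¹, hcomm (C.tt a b) (C.kk b)⁻¹, hcomm (C.kk a) (C.kk b)]
  have e2 : C.kk b * C.kk a * (C.rr a b * ((C.rr a b)⁻¹ * (C.kk a)⁻¹)) * C.kk (C.mul a b) *
      ((C.kk b)⁻¹ * C.tt a b) * (C.tt a b)⁻¹ = C.kk b * C.kk (C.mul a b) * (C.kk b)⁻¹ := by
    group
  rw [e2, hcomm (C.kk b)]
  group

end Cfg

namespace Ep

variable {G Q : Type*} [Group G] {C : Cfg G Q} {E : Type*} [AddCommGroup E] (P : Ep C E)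

lemma rr_A (g f : C.H) (a b t : Q) (v : G) :
    P.CC g f (C.rr b t) (C.R a * v) - P.CC g f (C.rr b t) (C.R a) =
      P.CC g f (C.rr (C.mul b a) t) v - P.CC g f (C.rr a t) v := by
  have h1 := P.be_hat_mul g (n := C.i (C.mm (C.hat f v).1 t))
    (by rw [← C.jj_R]; exact C.jj_K2 _ _) (C.R a) (C.R b)
  have s1 : C.R b = C.R b * ((1 : C.H) : G) := by simp
  have s2 : C.R t * C.R b = C.R (C.mul b t) * (C.rr b t : G) := C.RR b t
  have s3 : C.R a * C.R b = C.R (C.mul b a) * (C.rr b a : G) := C.RR b a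
  have s4 : C.R t * (C.R a * C.R b) =
      C.R (C.mul (C.mul b a) t) * ((C.rr (C.mul b a) t * C.rr b a : C.H) : G) := by
    rw [s3, ← mul_assoc, C.RR, Subgroup.coe_mul, ← mul_assoc]; rfl
  have s5 : C.R a = C.R a * ((1 : C.H) : G) := by simp
  have s6 : C.R t * C.R a = C.R (C.mul a t) * (C.rr a t : G) := C.RR a t
  rw [P.be_mm, P.be_mm, P.be_mm, P.be_ii, P.ga_sg2 _ _ s1, P.ga_sg2 _ _ s2, P.ga_sg2 _ _ s3,
    P.ga_sg2 _ _ s4, P.ga_sg2 _ _ s5, P.ga_sg2 _ _ s6, ← P.CC_l, ← P.CC_l, ← P.CC_l, ← P.CC_l,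
    ← P.CC_l, ← P.CC_l, P.CC_one2, P.CC_one2, P.CC_mul2] at h1
  have h2 : P.CC (C.br g (C.R a)) (C.rr b t) f v =
      P.CC g f (C.rr b t) (C.R a * v) - P.CC g f (C.rr b t) (C.R a) := by
    rw [P.CC_13, P.CC_br, P.CC_13 f, P.CC_13 f, P.CC_23 g f (C.rr b t), P.CC_23 g f (C.rr b t)]
  rw [h2, P.CC_23 g (C.rr (C.mul b a) t), P.CC_23 g (C.rr a t)] at h1
  rw [← sub_eq_zero] at h1 ⊢
  rw [← neg_eq_zero, ← h1]
  abel

lemma rr_coc (g f : C.H) (a b t : Q) (v : G) :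
    P.CC g f (C.rr b t) (C.R a * v) - P.CC g f (C.rr b t) (C.R a) =
      - P.CC g f (C.rr a (C.mul b t)) v + P.CC g f (C.rr (C.mul a b) t) v
        + P.CC g f (C.rr a b) v := by
  rw [← P.CC_br, P.CC_congr3 g f v (C.br_rr a b t), CC_mul3, CC_mul3, CC_inv3]

lemma rr_add2 (g f : C.H) (a b t : Q) (v : G) :
    P.CC g f (C.rr a (C.mul b t)) v = P.CC g f (C.rr a b) v + P.CC g f (C.rr a t) v := by
  have h1 := P.rr_A g f a b t v
  rw [P.rr_coc, P.CC_congr3 g f v (C.rr_congr t (C.R_mul_comm_N a b))] at h1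
  rw [← sub_eq_zero] at h1 ⊢
  rw [← neg_eq_zero, ← h1]
  abel

lemma tt_add1 (g f : C.H) (a b t : Q) (v : G) :
    P.CC g f (C.tt (C.mul t b) a) v = P.CC g f (C.tt b a) v + P.CC g f (C.tt t a) v :=
  P.op.rr_add2 g f a b t v

lemma tt_coc (g f : C.H) (a b t : Q) (v : G) :
    P.CC g f (C.tt t b) (C.L a * v) - P.CC g f (C.tt t b) (C.L a) =
      - P.CC g f (C.tt (C.mul t b) a) v + P.CC g f (C.tt t (C.mul b a)) v
        + P.CC g f (C.tt b a) v :=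
  P.op.rr_coc g f a b t v

lemma CC_LR (g f h : C.H) (a : Q) (v : G) : P.CC g f h (C.L a * v) = P.CC g f h (C.R a * v) := by
  rw [C.LRk]; exact P.CC_NN g f h _ _ (C.HN (C.kH a))

lemma CC_LR' (g f h : C.H) (a : Q) : P.CC g f h (C.L a) = P.CC g f h (C.R a) := by
  have := P.CC_LR g f h a 1
  simpa using this

lemma CC_pt (g f h : C.H) (w : G) : P.CC g f h (C.R (C.pt w)) = P.CC g f h w := by
  rw [← P.CC_LR']
  conv_rhs => rw [← C.pt_hp w]
  exact (P.CC_Nr g f h _ (C.HN (C.hp w).2)).symm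

lemma CC_Rmul (g f h : C.H) (a b : Q) :
    P.CC g f h (C.R (C.mul a b)) = P.CC g f h (C.R a * C.R b) := by
  rw [P.CC_comm, C.RR]
  exact (P.CC_Nr g f h _ (C.HN (C.rH a b))).symm

lemma CC_Rmul_pt (g f h : C.H) (x y : G) :
    P.CC g f h (C.R (C.mul (C.pt x) (C.pt y))) = P.CC g f h (x * y) := by
  rw [CC_Rmul]
  have h1 : P.CC g f h (x * y) = P.CC g f h (C.L (C.pt x) * C.hp x * y) := by rw [C.pt_hp]
  rw [h1, P.CC_NN g f h _ _ (C.HN (C.hp x).2), P.CC_LR, P.CC_comm, P.CC_comm g f h _ y]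
  conv_rhs => rw [← C.pt_hp y]
  rw [P.CC_NN g f h _ _ (C.HN (C.hp y).2), P.CC_LR]

/-- the trilinear function -/
def TT (g f : C.H) (a b c : Q) : E := P.CC g f (C.tt a b) (C.R c)

lemma TT_mm (g f : C.H) (a b c : Q) : P.TT g f a b c = P.CC g f (C.mm a c) (C.L b) := by
  have e : C.cM (C.R c) (C.i (C.tt a b)) = (C.i (C.mm (C.mul a b) c))⁻¹ * C.i (C.tt a b) *
      C.cM (C.L b) (C.i (C.mm a c)) * C.i (C.mm b c) := Subtype.ext (C.t_conj a b c)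
  rw [TT, CC, e, ← C.i_inv, ga_mul3, ga_mul3, ga_mul3, ga_ii, ga_ii, ga_ii, zero_add, zero_add,
    add_zero]
  rfl

lemma TT_mmR (g f : C.H) (a b c : Q) : P.TT g f a b c = P.CC g f (C.mm a c) (C.R b) := by
  rw [TT_mm, CC_LR']

lemma TT_rrL (g f : C.H) (a b c : Q) : P.TT g f a b c = - P.CC g f (C.rr b c) (C.L a) := by
  have h1 : P.CC g f (C.rr b c) (C.L a) = P.CC g f (C.op.mm c a) (C.R b) :=
    P.op.TT_mm g f c b a
  have h2 : C.op.mm c a = (C.mm a c)⁻¹ := by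
    apply Subtype.ext
    show (C.L a * C.R c)⁻¹ * (C.R c * C.L a) = ((C.R c * C.L a)⁻¹ * (C.L a * C.R c))⁻¹
    group
  rw [h1, h2, CC_inv3, neg_neg, TT_mmR]

lemma TT_rr (g f : C.H) (a b c : Q) : P.TT g f a b c = - P.CC g f (C.rr b c) (C.R a) := by
  rw [TT_rrL, CC_LR']

lemma TT_add1 (g f : C.H) (a a' b c : Q) :
    P.TT g f (C.mul a a') b c = P.TT g f a b c + P.TT g f a' b c := by
  rw [TT, tt_add1, TT, TT, add_comm]

lemma TT_add3 (g f : C.H) (a b c c' : Q) :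
    P.TT g f a b (C.mul c c') = P.TT g f a b c + P.TT g f a b c' := by
  rw [TT_rr, rr_add2, TT_rr, TT_rr, neg_add]

lemma tt_addw (g f : C.H) (a b : Q) (x y : G) :
    P.CC g f (C.tt a b) (x * y) = P.CC g f (C.tt a b) x + P.CC g f (C.tt a b) y := by
  rw [← P.CC_Rmul_pt, ← P.CC_pt g f _ x, ← P.CC_pt g f _ y]
  exact P.TT_add3 g f a b _ _

lemma TT_add2 (g f : C.H) (a b b' c : Q) :
    P.TT g f a (C.mul b b') c = P.TT g f a b c + P.TT g f a b' c := by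
  have h1 := P.tt_coc g f b' b a (C.R c)
  have h2 := P.TT_add1 g f a b b' c
  simp only [TT] at h2 ⊢
  rw [P.tt_addw, h2] at h1
  rw [← sub_eq_zero] at h1 ⊢
  rw [← neg_eq_zero, ← h1]
  abel

lemma rr_addw (g f : C.H) (a b : Q) (x y : G) :
    P.CC g f (C.rr a b) (x * y) = P.CC g f (C.rr a b) x + P.CC g f (C.rr a b) y := by
  rw [← P.CC_Rmul_pt, ← P.CC_pt g f _ x, ← P.CC_pt g f _ y]
  have := P.TT_add1 g f (C.pt x) (C.pt y) a b
  rw [TT_rr, TT_rr, TT_rr] at this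
  rw [← neg_inj, this]; abel

lemma mm_addw (g f : C.H) (a b : Q) (x y : G) :
    P.CC g f (C.mm a b) (x * y) = P.CC g f (C.mm a b) x + P.CC g f (C.mm a b) y := by
  rw [← P.CC_Rmul_pt, ← P.CC_pt g f _ x, ← P.CC_pt g f _ y]
  have := P.TT_add2 g f a (C.pt x) (C.pt y) b
  rw [TT_mmR, TT_mmR, TT_mmR] at this
  exact this

/-- the function `k` -/
def KK (g f : C.H) (a y : Q) : E := P.CC g f (C.kk a) (C.R y)

lemma KK_self (g f : C.H) (a : Q) : P.KK g f a a = 0 := by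
  rw [KK, ← CC_LR', CC, C.cM_kk_self, ga_mul3, ga_ii, ga_ii, add_zero]

lemma CC_kk_pt (g f : C.H) (w : G) : P.CC g f (C.kk (C.pt w)) w = 0 := by
  rw [← P.CC_pt]; exact P.KK_self g f _

lemma KK_cc (g f : C.H) (a b : Q) : P.KK g f a b = P.ga (C.i g) (C.i f) (C.cc a b) := by
  rw [KK, CC, C.cM_kk, ga_mul3, ga_mul3, ga_ii, ga_ii, add_zero, add_zero]

lemma KK_anti (g f : C.H) (a b : Q) : P.KK g f b a = - P.KK g f a b := by
  rw [KK_cc, KK_cc, C.cc_inv, ga_inv3]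

lemma KK_mul (g f : C.H) (a b y : Q) : P.KK g f (C.mul a b) y = P.KK g f a y + P.KK g f b y
    - P.TT g f y a b + P.TT g f a y b - P.TT g f a b y := by
  rw [KK, C.kk_mul, CC_mul3, CC_mul3, CC_mul3, CC_mul3, CC_inv3, TT_rr, TT_mmR P g f a y b, TT,
    KK, KK]
  abel

lemma CC_kk_congr (g f : C.H) {p p' : Q} (w : G) (h : (C.L p)⁻¹ * C.L p' ∈ C.N) :
    P.CC g f (C.kk p) w = P.CC g f (C.kk p') w := P.CC_congr3 g f w (C.kk_congr h)

lemma pt_N (w : G) : (C.L (C.pt w))⁻¹ * w ∈ C.N := C.HN (C.pt_spec w)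

lemma kk_A' (g f : C.H) (x w v : G) :
    P.CC g f (C.kk (C.pt w)) (x * v) - P.CC g f (C.kk (C.pt w)) x =
      P.CC g f (C.kk (C.pt (x * w))) v - P.CC g f (C.kk (C.pt x)) v := by
  have h1 := P.be_hat_mul g (n := C.i (C.kk (C.hat f v).1)) (C.kk_K2 _) x w
  rw [P.be_kk, P.be_kk, P.be_kk, P.be_ii, ← P.CC_l, ← P.CC_l, ← P.CC_l] at h1
  have h2 : P.CC (C.br g x) (C.kk (C.pt w)) f v =
      P.CC g f (C.kk (C.pt w)) (x * v) - P.CC g f (C.kk (C.pt w)) x := by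
    rw [P.CC_13, P.CC_br, P.CC_13 f, P.CC_13 f, P.CC_23 g f (C.kk (C.pt w)),
      P.CC_23 g f (C.kk (C.pt w))]
  rw [h2, P.CC_23 g (C.kk (C.pt (x * w))) f, P.CC_23 g (C.kk (C.pt x)) f] at h1
  rw [← sub_eq_zero] at h1 ⊢
  rw [← neg_eq_zero, ← h1]
  abel

lemma kk_A (g f : C.H) (a b y : Q) :
    P.KK g f b (C.mul a y) - P.KK g f b a = P.KK g f (C.mul a b) y - P.KK g f a y := by
  have h1 := P.kk_A' g f (C.L a) (C.L b) (C.R y)
  have e1 : ∀ v, P.CC g f (C.kk (C.pt (C.L b))) v = P.CC g f (C.kk b) v := fun v =>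
    P.CC_kk_congr g f v (pt_N _)
  have e2 : ∀ v, P.CC g f (C.kk (C.pt (C.L a))) v = P.CC g f (C.kk a) v := fun v =>
    P.CC_kk_congr g f v (pt_N _)
  have e3 : ∀ v, P.CC g f (C.kk (C.pt (C.L a * C.L b))) v = P.CC g f (C.kk (C.mul a b)) v := by
    intro v
    apply P.CC_kk_congr g f v
    have e : (C.L (C.pt (C.L a * C.L b)))⁻¹ * C.L (C.mul a b) =
        ((C.L (C.pt (C.L a * C.L b)))⁻¹ * (C.L a * C.L b)) * (C.t a b)⁻¹ := by
      simp only [Cfg.t]; group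
    rw [e]
    exact mul_mem (pt_N _) (inv_mem (C.HN (C.tH a b)))
  rw [e1, e1, e2, e3, CC_LR, ← CC_Rmul, CC_LR'] at h1
  exact h1

/-- defect of additivity of `k` in the first place -/
def DD (g f : C.H) (a b y : Q) : E := P.KK g f (C.mul a b) y - P.KK g f a y - P.KK g f b y

lemma DD_TT (g f : C.H) (a b y : Q) :
    P.DD g f a b y = P.TT g f a y b - P.TT g f y a b - P.TT g f a b y := by
  rw [DD, KK_mul]; abel

lemma DD_23 (g f : C.H) (a b y : Q) : P.DD g f a b y = - P.DD g f a y b := by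
  have h1 := P.kk_A g f a b y
  rw [P.KK_anti g f (C.mul a y) b, P.KK_anti g f a b] at h1
  rw [DD, DD, ← h1, P.KK_anti g f y b]
  abel

lemma DD_12 (g f : C.H) (a b y : Q) : P.DD g f a b y = P.DD g f b a y := by
  rw [DD, DD]
  have : P.KK g f (C.mul a b) y = P.KK g f (C.mul b a) y :=
    P.CC_kk_congr g f _ (C.L_mul_comm_N a b)
  rw [this]; abel

lemma S1 (g f : C.H) (a b y : Q) : P.TT g f y a b = - P.TT g f b a y := by
  have h := P.DD_23 g f a b y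
  rw [DD_TT, DD_TT] at h
  rw [← sub_eq_zero] at h ⊢
  rw [← neg_eq_zero, ← h]
  abel

lemma DD_cyc (g f : C.H) (a b y : Q) :
    P.DD g f a b y = P.TT g f a y b + P.TT g f b a y + P.TT g f y b a := by
  rw [DD_TT, P.S1 g f a b y, P.S1 g f b y a]; abel

lemma DD_neg (g f : C.H) (a b y : Q) : P.DD g f a b y = - P.DD g f a b y := by
  have h1 : P.DD g f a b y = - P.DD g f a y b := P.DD_23 g f a b y
  have h2 : P.DD g f a y b = P.DD g f y a b := P.DD_12 g f a y b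
  have h3 : P.DD g f y a b = - P.DD g f y b a := P.DD_23 g f y a b
  have h4 : P.DD g f y b a = P.DD g f b y a := P.DD_12 g f y b a
  have h5 : P.DD g f b y a = - P.DD g f b a y := P.DD_23 g f b y a
  have h6 : P.DD g f b a y = P.DD g f a b y := P.DD_12 g f b a y
  calc P.DD g f a b y = - P.DD g f a y b := h1
    _ = - P.DD g f y a b := by rw [h2]
    _ = P.DD g f y b a := by rw [h3, neg_neg]
    _ = P.DD g f b y a := h4
    _ = - P.DD g f b a y := h5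
    _ = - P.DD g f a b y := by rw [h6]

lemma Dt_kk (g f : C.H) (c : Q) (x y : G) : P.Dt g f (C.kk c) x y =
    P.CC g f (C.mm c (C.pt y)) x + P.CC g f (C.rr c (C.pt y)) x - P.CC g f (C.rr (C.pt y) c) x := by
  have h1 : P.Dt g f (C.kk c) x y = - P.DD g f (C.pt x) (C.pt y) c := by
    rw [Dt, ← P.CC_Rmul_pt, ← P.CC_pt g f _ x, ← P.CC_pt g f _ y, DD]
    have e1 : P.CC g f (C.kk c) (C.R (C.mul (C.pt x) (C.pt y))) =
      - P.KK g f (C.mul (C.pt x) (C.pt y)) c := P.KK_anti g f _ _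
    have e2 : P.CC g f (C.kk c) (C.R (C.pt x)) = - P.KK g f (C.pt x) c := P.KK_anti g f _ _
    have e3 : P.CC g f (C.kk c) (C.R (C.pt y)) = - P.KK g f (C.pt y) c := P.KK_anti g f _ _
    rw [e1, e2, e3]; abel
  rw [h1, DD_TT, P.TT_rr g f (C.pt x) c (C.pt y), P.TT_mmR g f c (C.pt x) (C.pt y),
    P.TT_rr g f (C.pt x) (C.pt y) c, P.CC_pt, P.CC_pt, P.CC_pt]
  abel

lemma Dt_add (g f h : C.H) (x x' y : G) :
    P.Dt g f h (x * x') y = P.Dt g f h x y + P.Dt g f h x' y := by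
  have hz : ∀ s : C.H, (∀ x y, P.CC g f s (x * y) = P.CC g f s x + P.CC g f s y) →
      ∀ x y, P.Dt g f s x y = 0 := by
    intro s hs x y
    rw [Dt, hs]; abel
  refine C.H_ind (p := fun h => P.Dt g f h (x * x') y = P.Dt g f h x y + P.Dt g f h x' y)
    ?_ ?_ ?_ ?_ ?_ ?_ h
  · intro c
    rw [Dt_kk, Dt_kk, Dt_kk, P.mm_addw, P.rr_addw, P.rr_addw]; abel
  · intro a b
    rw [hz _ (P.tt_addw g f a b), hz _ (P.tt_addw g f a b), hz _ (P.tt_addw g f a b), add_zero]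
  · intro a b
    rw [hz _ (P.rr_addw g f a b), hz _ (P.rr_addw g f a b), hz _ (P.rr_addw g f a b), add_zero]
  · simp only [Dt, P.CC_one3]; simp
  · intro s s' h1 h2
    simp only [Dt, P.CC_mul3] at h1 h2 ⊢
    have := congrArg₂ (· + ·) h1 h2
    rw [← sub_eq_zero] at this ⊢
    rw [← this]; abel
  · intro s h1
    simp only [Dt, P.CC_inv3] at h1 ⊢
    rw [← sub_eq_zero] at h1 ⊢
    rw [← neg_eq_zero, ← h1]; abel

end Ep

end Pool.Agent.W2helper28.AIM
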