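import Pool.Agent.W2helper28.AIM.Sec3

/-!
The symmetric function `Φ`, the relation `2 T = - D`, and the vanishing of `C`.
-/

set_option autoImplicit false

namespace Pool.Agent.W2helper28.AIM

open Subgroup
open scoped commutatorElement

namespace Cfg

variable {G Q : Type*} [Group G] (C : Cfg G Q)

lemma jj_one (q : C.QN) : C.jj q 1 = 1 := by
  rw [jj, C.one_cM]; group

lemma cc_eq (a b : Q) : C.cc a b =
    C.cM (C.R b) (C.i (C.kk a)) * (C.i (C.mm a b))⁻¹ * (C.i (C.kk a))⁻¹ := by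
  rw [C.cM_kk]; group

/-- `A_g` -/
noncomputable def AA (g : C.H) (w : G) : C.N := C.cM w⁻¹ (C.l (C.hat g w))

lemma AA_eq (g : C.H) (w : G) : C.AA g w = C.l (C.hat g w) * C.jj (C.hat g w) w⁻¹ := C.cM_l _ _

lemma AA_br (g : C.H) (w : G) : (C.AA g w)⁻¹ * C.i g = C.cM w⁻¹ (C.i (C.br g w)) := by
  have h1 : C.i (C.br g w) = (C.l (C.hat g w))⁻¹ * C.cM w (C.i g) := by
    rw [C.cM_i]; group
  rw [h1, C.cM_mul, C.cM_cM, mul_inv_cancel, C.one_cM, C.cM_inv, AA]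

/-- the difference of a bracket -/
noncomputable def rb (h : C.H) (y : G) : C.H := C.br h y * h⁻¹

end Cfg

namespace Ep

variable {G Q : Type*} [Group G] {C : Cfg G Q} {E : Type*} [AddCommGroup E] (P : Ep C E)

lemma be_inv_left (a b : C.N) : P.be a⁻¹ b = - P.be a b + P.ga a a b := by
  have h := P.be_mul_left a⁻¹ a b
  rw [inv_mul_cancel, ga_inv1] at h
  have h0 : P.be 1 b = 0 := P.be_of_comm (by simp)
  rw [h0] at h
  rw [← sub_eq_zero, h]; abel

lemma be_inv_right (a b : C.N) : P.be b a⁻¹ = - P.be b a + P.ga a b a := by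
  rw [be_symm, be_inv_left, be_symm P a b, ga_symm P a b a]; abel

lemma ga_AA (a b : C.N) (g : C.H) (w : G) : P.ga a b (C.AA g w) = P.ga a b (C.l (C.hat g w)) :=
  P.ga_conj_l3 _ _ _ _
lemma ga_AA2 (a b : C.N) (g : C.H) (w : G) : P.ga a (C.AA g w) b = P.ga a (C.l (C.hat g w)) b :=
  P.ga_conj_l2 _ _ _ _
lemma ga_AA1 (a b : C.N) (g : C.H) (w : G) : P.ga (C.AA g w) a b = P.ga (C.l (C.hat g w)) a b :=
  P.ga_conj_l1 _ _ _ _

/-- `Φ` -/
def Ph (g h : C.H) (w : G) : E := P.be (C.i g) (C.cM w (C.i h))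

lemma Ph_l (g h : C.H) (w : G) : P.Ph g h w = P.be (C.i g) (C.l (C.hat h w)) := by
  rw [Ph, C.cM_i, be_mul_right, be_ii, ga_ii, add_zero, add_zero]

lemma be_l_jj (g h : C.H) (w : G) : P.be (C.l (C.hat g w)) (C.jj (C.hat h w) w⁻¹) =
    - P.CC g (C.sg w⁻¹) h w - P.CC g (C.sg w) h w := by
  rw [P.be_K2' g (C.jj_K2 _ _), C.cM_jj, inv_mul_cancel, C.jj_one, mul_one,
    P.be_inv_right_K2 (C.jj_K2 _ _), be_jj, be_jj, ← CC_l, ← CC_l]
  abel

lemma be_ll (g h : C.H) (w : G) : P.be (C.l (C.hat g w)) (C.l (C.hat h w)) = 0 := by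
  rw [be_hat_l, ← CC_l, CC_23, CC_kk_pt]

lemma be_AA (g h : C.H) (w : G) : P.be (C.AA g w) (C.AA h w) = 0 := by
  rw [C.AA_eq, C.AA_eq, be_mul_left, P.ga_K2_2 (C.jj_K2 _ _), P.be_mul_right_K2 (C.jj_K2 _ _),
    P.be_mul_right_K2 (C.jj_K2 _ _), be_ll, be_l_jj, be_symm P (C.l (C.hat h w)), be_l_jj,
    P.be_of_comm (C.jj_comm _ _ (C.jj_K2 _ _)), P.CC_13 g, P.CC_13 g]
  abel

/-- symmetry of `Φ` -/
lemma Ph_symm (g h : C.H) (w : G) : P.Ph g h w = P.Ph h g w := by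
  have h0 : P.be ((C.AA g w)⁻¹ * C.i g) ((C.AA h w)⁻¹ * C.i h) = 0 := by
    rw [C.AA_br, C.AA_br, be, ← C.cM_comm, C.i_comm', C.cM_one, P.one]
  rw [be_mul_left, be_mul_right, be_mul_right, be_inv_left P (C.AA g w) (C.AA h w)⁻¹,
    be_inv_right P (C.AA h w) (C.AA g w), be_AA, be_ii, be_inv_left P (C.AA g w) (C.i h),
    be_inv_right P (C.AA h w) (C.i g)] at h0
  simp only [ga_inv1, ga_inv2, ga_inv3, ga_mul3, ga_AA, ga_AA1, ga_AA2, ga_ll, ga_ii, ga_lil] at h0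
  rw [ga_symm P (C.l (C.hat h w)) (C.i h) (C.l (C.hat g w)),
    ga_symm P (C.l (C.hat g w)) (C.i h) (C.l (C.hat g w)), ga_lil, ga_lil, P.Dt_23 g h g,
    P.Dt_23 h h g, be_symm P (C.i h) (C.AA g w)] at h0
  have e1 : ∀ g h : C.H, P.be (C.i g) (C.AA h w) = P.Ph g h w - P.CC g (C.sg w⁻¹) h w := by
    intro g h
    rw [C.AA_eq, P.be_mul_right_K2 (C.jj_K2 _ _), ← Ph_l, be_jj, ← CC_l]; abel
  rw [e1, e1, P.CC_13 h] at h0
  rw [← sub_eq_zero, ← neg_eq_zero, ← h0]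
  abel

lemma Ph_N (f h : C.H) (w : G) (m : C.N) :
    P.Ph f h (w * m) = P.Ph f h w + P.ga (C.i f) (C.cM w (C.i h)) m := by
  have e : C.cM (w * m) (C.i h) = C.cM w (C.i h) * ⁅(C.cM w (C.i h))⁻¹, m⁻¹⁆ := by
    rw [← C.cM_cM, C.cM_N]
    simp only [commutatorElement_def]; group
  rw [Ph, e, P.be_mul_right_K2 (C.comm_K2 _ _), be_D, ga_inv2, ga_inv3, neg_neg]
  rfl

/-- (R1) -/
lemma Ph_rb (h f : C.H) (y x : G) : P.Ph (C.rb h y) f x =
    P.Ph f h (y * x) - P.Ph f h y - P.Ph f h x + P.CC f (C.sg x) h y := by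
  have h1 : P.Ph f h (y * x) = P.Ph f h y - P.CC f (C.sg x) h y + P.Ph (C.br h y) f x
      - P.Dt h f h y x := by
    have e1 : C.cM (y * x) (C.i h) = C.cM x (C.l (C.hat h y)) * C.cM x (C.i (C.br h y)) := by
      rw [← C.cM_cM, C.cM_i, C.cM_mul]
    have e2 : P.be (C.i f) (C.cM x (C.i (C.br h y))) = P.Ph (C.br h y) f x := by
      rw [Ph_symm]; rfl
    have e3 : P.ga (C.cM x (C.l (C.hat h y))) (C.i f) (C.cM x (C.i (C.br h y))) =
        - P.Dt h f h y x := by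
      rw [ga_conj_l1, ga_i_cM, ga_lil, Dt, CC_br, CC_br, CC_br]
      have h5 := P.Dt_add h f h y x y
      rw [P.Dt_symm h f h (y * x) y, P.Dt_symm h f h x y] at h5
      simp only [Dt] at h5 ⊢
      rw [← sub_eq_zero] at h5 ⊢
      rw [← neg_eq_zero, ← h5]
      abel
    have e4 : P.be (C.i f) (C.cM x (C.l (C.hat h y))) = P.Ph f h y - P.CC f (C.sg x) h y := by
      rw [C.cM_l, P.be_mul_right_K2 (C.jj_K2 _ _), ← Ph_l, be_jj, ← CC_l]; abel
    rw [Ph, e1, be_mul_right, e2, e3, e4]; abel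
  have h2 : P.Ph (C.br h y) f x = P.Ph (C.rb h y) f x + P.Ph h f x + P.Dt f h h y x := by
    have e1 : C.br h y = C.rb h y * h := by rw [Cfg.rb]; group
    have e2 : P.ga (C.i (C.rb h y)) (C.i h) (C.cM x (C.i f)) = P.Dt f h h y x := by
      have : P.ga (C.i (C.rb h y)) (C.i h) (C.cM x (C.i f)) = P.CC (C.rb h y) h f x := rfl
      rw [this, P.CC_13, Cfg.rb, CC_mul3, CC_inv3, CC_br, Dt]; abel
    conv_lhs => rw [e1]
    rw [Ph, C.i_mul, be_mul_left, e2]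
    simp only [Ph]
  rw [h1, Ph_symm P f h x] 
  have h3 : P.Ph (C.rb h y) f x = P.Ph (C.br h y) f x - P.Ph h f x - P.Dt f h h y x := by
    rw [h2]; abel
  rw [h3, P.Dt_12 h f h]
  abel

lemma CC_sg_R (g h : C.H) (a : Q) (w : G) : P.CC g (C.sg (C.R a)) h w = 0 := by
  have s : C.R a = C.R a * ((1 : C.H) : G) := by simp
  rw [CC_l, P.ga_sg2 _ _ s, ← CC_l, CC_one2]

lemma CC_sg_RR (g h : C.H) (a b : Q) (w : G) :
    P.CC g (C.sg (C.R b * C.R a)) h w = P.CC g (C.rr a b) h w := by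
  have s : C.R b * C.R a = C.R (C.mul a b) * (C.rr a b : G) := C.RR a b
  rw [CC_l, P.ga_sg2 _ _ s, ← CC_l]

lemma ga_cc (f h : C.H) (a b : Q) (w x : G) :
    P.ga (C.i f) (C.cM w (C.i h)) (C.cM x (C.cc a b)) =
      P.CC f h (C.kk a) (C.R b * x) - P.CC f h (C.kk a) x - P.CC f h (C.mm a b) x
        + P.CC f h (C.mm a b) w := by
  rw [C.cc_eq, C.cM_mul, C.cM_mul, C.cM_inv, C.cM_inv, C.cM_cM, ga_mul3, ga_mul3, ga_inv3,
    ga_inv3, ga_G1, ga_G1, ga_G1]
  abel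

lemma ga_cc1 (f h : C.H) (a b : Q) (w : G) :
    P.ga (C.i f) (C.cM w (C.i h)) (C.cc a b) =
      P.KK f h a b + P.CC f h (C.mm a b) w := by
  have := P.ga_cc f h a b w 1
  rw [C.one_cM, mul_one, CC_wone, CC_wone, sub_zero, sub_zero] at this
  exact this

lemma RR_cc (a b : Q) : C.R b * C.R a = C.R a * C.R b * (C.cc a b : G) := by
  simp only [Cfg.cc]; group

lemma DD_Dt (g f : C.H) (a b c : Q) : P.DD g f a b c = - P.Dt g f (C.kk c) (C.R a) (C.R b) := by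
  rw [Dt, ← CC_Rmul, DD]
  have e1 : P.CC g f (C.kk c) (C.R (C.mul a b)) = - P.KK g f (C.mul a b) c := P.KK_anti g f _ _
  have e2 : P.CC g f (C.kk c) (C.R a) = - P.KK g f a c := P.KK_anti g f _ _
  have e3 : P.CC g f (C.kk c) (C.R b) = - P.KK g f b c := P.KK_anti g f _ _
  rw [e1, e2, e3]; abel

lemma TT_D (f h : C.H) (a b c : Q) : P.TT f h b a c + P.TT f h b a c = - P.DD f h b a c := by
  have hX := P.Ph_symm (C.rb h (C.R b)) (C.rb f (C.R c)) (C.R a)
  rw [P.Ph_rb h (C.rb f (C.R c)), P.Ph_rb f (C.rb h (C.R b))] at hX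
  simp only [P.Ph_rb f h, P.Ph_rb h f, P.CC_sg_R, P.CC_sg_RR] at hX
  simp only [P.Ph_symm h f] at hX
  have e1 : C.R b * C.R c = C.R c * C.R b * (C.cc c b : G) := RR_cc c b
  have e2 : C.R b * (C.R c * C.R a) = C.R c * (C.R b * C.R a) * (C.cM (C.R a) (C.cc c b) : G) := by
    rw [← mul_assoc, e1]
    simp only [C.cM_coe, cj]; group
  rw [e1, e2, P.Ph_N, P.Ph_N, ga_cc, ga_cc1] at hX
  have e3 : P.CC h (C.rr a b) f (C.R c) = - P.TT f h c a b := by
    rw [TT_rr, neg_neg, CC_13, CC_23]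
  have e4 : P.CC f (C.rr a c) h (C.R b) = - P.TT f h b a c := by
    rw [TT_rr, neg_neg, CC_23]
  rw [e3, e4, P.mm_addw, P.mm_addw, P.mm_addw] at hX
  have e5 : P.TT f h c a b = - P.TT f h b a c := P.S1 f h a b c
  rw [e5] at hX
  rw [P.DD_Dt, Dt]
  simp only [KK] at hX
  rw [← sub_eq_zero] at hX ⊢
  rw [← hX]
  abel

/-- four quantities killed by `2` with vanishing triple sums -/
lemma four {y a b p : E} (hp : p = - p) (h1 : y + a + b = 0) (h2 : y + p + b = 0)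
    (h3 : y + a + p = 0) (h4 : p + a + b = 0) : p = 0 := by
  have e1 : a = p := by
    have : y + a + b = y + p + b := by rw [h1, h2]
    have h := add_right_cancel this
    exact add_left_cancel h
  have e2 : b = p := by
    have : y + a + b = y + a + p := by rw [h1, h3]
    exact add_left_cancel this
  rw [e1, e2] at h4
  have : p + p = 0 := by
    nth_rw 2 [hp]; abel
  rw [this, zero_add] at h4
  exact h4

lemma five_core {X : Type*} (U : X → X → X → X → X → E)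
    (hn : ∀ a b c p q, U a b c p q = - U a b c p q)
    (h1 : ∀ a b c p q, U a b c p q = U c b a p q)
    (h4 : ∀ a b c p q, U a b c p q = U a b p c q)
    (h3 : ∀ a y b p q, U a y b p q + U b a y p q + U y b a p q = 0)
    (a b c p q : X) : U a b c p q = 0 := by
  have h5 : ∀ a b c p q, U a b c p q = U p b c a q := by
    intro a b c p q
    rw [h1 a b c p q, h4 c b a p q, h1 c b p a q]
  have k1 := h3 a b c p q
  rw [h1 c a b p q, h1 b c a p q] at k1
  have k2 := h3 a b p c q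
  rw [h4 a b p c q, h1 p a b c q, h4 b a p c q, h1 b p a c q] at k2
  have k3 := h3 p b c a q
  rw [h5 p b c a q, h5 c p b a q, h5 b c p a q, h4 a c p b q] at k3
  have k4 := h3 a p c b q
  rw [h4 a p c b q, h5 c a p b q, h4 b a p c q, h1 p c a b q, h4 a c p b q] at k4
  refine four (y := U b a c p q) (a := U a c b p q) (b := U a p b c q) (p := U a b c p q)
    (hn _ _ _ _ _) ?_ ?_ ?_ ?_
  · rw [← k4]; abel
  · rw [← k2]; abel
  · rw [← k1]; abel
  · rw [← k3]; abel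

lemma Dt_tt (g f : C.H) (a b : Q) (x y : G) : P.Dt g f (C.tt a b) x y = 0 := by
  rw [Dt, P.tt_addw]; abel
lemma Dt_rr (g f : C.H) (a b : Q) (x y : G) : P.Dt g f (C.rr a b) x y = 0 := by
  rw [Dt, P.rr_addw]; abel

lemma TT_neg_of (f h : C.H) (hD : ∀ a b c, P.DD f h a b c = 0) (a b c : Q) :
    P.TT f h a b c = - P.TT f h a b c := by
  have h1 := P.TT_D f h b a c
  rw [hD, neg_zero] at h1
  exact eq_neg_of_add_eq_zero_left h1

/-- `C(θ, f, θ') = 0` -/
lemma TT_tt (f : C.H) (p q a b c : Q) : P.TT (C.tt p q) f a b c = 0 := by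
  have hD : ∀ p q a b c, P.DD (C.tt p q) f a b c = 0 := by
    intro p q a b c
    rw [DD_Dt, Dt_13, Dt_tt, neg_zero]
  have hn : ∀ p q a b c, P.TT (C.tt p q) f a b c = - P.TT (C.tt p q) f a b c :=
    fun p q a b c => P.TT_neg_of _ _ (hD p q) a b c
  have h1 : ∀ p q a b c, P.TT (C.tt p q) f a b c = P.TT (C.tt p q) f c b a := by
    intro p q a b c
    rw [P.S1 (C.tt p q) f b c a, ← hn]
  have h2 : ∀ p q a b c, P.TT (C.tt p q) f a b c = P.TT (C.tt a b) f p q c := by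
    intro p q a b c
    rw [TT, CC_13]; rfl
  refine five_core (fun a b c p q => P.TT (C.tt p q) f a b c) ?_ ?_ ?_ ?_ a b c p q
  · intro a b c p q; exact hn p q a b c
  · intro a b c p q; exact h1 p q a b c
  · intro a b c p q
    show P.TT (C.tt p q) f a b c = P.TT (C.tt c q) f a b p
    rw [h2, h1, h2]
  · intro a y b p q
    show P.TT (C.tt p q) f a y b + P.TT (C.tt p q) f b a y + P.TT (C.tt p q) f y b a = 0
    rw [← DD_cyc, hD]

lemma TT_r (f : C.H) (p q a b c : Q) : P.TT (C.rr p q) f a b c = 0 := by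
  have h := P.TT_tt f a b c p q
  rw [TT_rr, neg_eq_zero] at h
  rw [TT, CC_13, h]

/-- `C(κ, κ', θ) = 0` -/
lemma TT_kk (x z a b c : Q) : P.TT (C.kk x) (C.kk z) a b c = 0 := by
  have h1 : ∀ x z a b c, P.TT (C.kk x) (C.kk z) a b c = P.TT (C.kk z) (C.kk x) a b c := by
    intro x z a b c
    rw [TT, CC_12]; rfl
  have h2 : ∀ x z a b c, P.TT (C.kk x) (C.kk z) a b c = - P.TT (C.kk x) (C.kk c) a b z := by
    intro x z a b c
    rw [TT, TT, P.CC_23 (C.kk x) (C.kk z), P.CC_23 (C.kk x) (C.kk c)]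
    exact P.KK_anti (C.kk x) (C.tt a b) c z
  have hn : ∀ x z a b c, P.TT (C.kk x) (C.kk z) a b c = - P.TT (C.kk x) (C.kk z) a b c := by
    intro x z a b c
    calc P.TT (C.kk x) (C.kk z) a b c = - P.TT (C.kk x) (C.kk c) a b z := h2 _ _ _ _ _
      _ = - P.TT (C.kk c) (C.kk x) a b z := by rw [h1]
      _ = P.TT (C.kk c) (C.kk z) a b x := by rw [h2, neg_neg]
      _ = P.TT (C.kk z) (C.kk c) a b x := by rw [h1]
      _ = - P.TT (C.kk z) (C.kk x) a b c := h2 _ _ _ _ _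
      _ = - P.TT (C.kk x) (C.kk z) a b c := by rw [h1]
  have hD : ∀ x z a b c, P.DD (C.kk x) (C.kk z) a b c = 0 := by
    intro x z a b c
    have h3 := P.TT_D (C.kk x) (C.kk z) b a c
    rw [← neg_eq_zero, ← h3]
    nth_rw 2 [hn]
    abel
  refine five_core (fun a b c p q => P.TT (C.kk p) (C.kk q) a b c) ?_ ?_ ?_ ?_ a b c x z
  · intro a b c p q; exact hn p q a b c
  · intro a b c p q
    show P.TT (C.kk p) (C.kk q) a b c = P.TT (C.kk p) (C.kk q) c b a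
    rw [P.S1 (C.kk p) (C.kk q) b c a, ← hn]
  · intro a b c p q
    show P.TT (C.kk p) (C.kk q) a b c = P.TT (C.kk c) (C.kk q) a b p
    rw [h1, h2, ← hn, h1]
  · intro a y b p q
    show P.TT (C.kk p) (C.kk q) a y b + P.TT (C.kk p) (C.kk q) b a y +
      P.TT (C.kk p) (C.kk q) y b a = 0
    rw [← DD_cyc, hD]

lemma TT_zero (g f : C.H) (a b c : Q) : P.TT g f a b c = 0 := by
  have hmul : ∀ g g' f, P.TT (g * g') f a b c = P.TT g f a b c + P.TT g' f a b c :=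
    fun g g' f => P.CC_mul1 _ _ _ _ _
  have hinv : ∀ g f, P.TT g⁻¹ f a b c = - P.TT g f a b c := fun g f => P.CC_inv1 _ _ _ _
  have h12 : ∀ g f, P.TT g f a b c = P.TT f g a b c := fun g f => P.CC_12 _ _ _ _
  have hone : ∀ f, P.TT 1 f a b c = 0 := fun f => P.CC_one1 _ _ _
  refine C.H_ind (p := fun g => P.TT g f a b c = 0) ?_ ?_ ?_ ?_ ?_ ?_ g
  · intro x
    rw [h12]
    refine C.H_ind (p := fun g => P.TT g (C.kk x) a b c = 0) ?_ ?_ ?_ ?_ ?_ ?_ f
    · intro z; exact P.TT_kk _ _ _ _ _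
    · intro p q; exact P.TT_tt _ _ _ _ _ _
    · intro p q; exact P.TT_r _ _ _ _ _ _
    · exact hone _
    · intro s t hs ht; rw [hmul, hs, ht, add_zero]
    · intro s hs; rw [hinv, hs, neg_zero]
  · intro p q; exact P.TT_tt _ _ _ _ _ _
  · intro p q; exact P.TT_r _ _ _ _ _ _
  · exact hone _
  · intro s t hs ht; rw [hmul, hs, ht, add_zero]
  · intro s hs; rw [hinv, hs, neg_zero]

lemma CC_tt0 (g f : C.H) (a b : Q) (w : G) : P.CC g f (C.tt a b) w = 0 := by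
  rw [← CC_pt]; exact P.TT_zero _ _ _ _ _
lemma CC_rr0 (g f : C.H) (a b : Q) (w : G) : P.CC g f (C.rr a b) w = 0 := by
  have := P.TT_zero g f (C.pt w) a b
  rw [TT_rr, neg_eq_zero, CC_pt] at this
  exact this
lemma CC_mm0 (g f : C.H) (a b : Q) (w : G) : P.CC g f (C.mm a b) w = 0 := by
  have := P.TT_zero g f a (C.pt w) b
  rw [TT_mmR, CC_pt] at this
  exact this

lemma Dt_zero (g f h : C.H) (x y : G) : P.Dt g f h x y = 0 := by
  refine C.H_ind (p := fun h => P.Dt g f h x y = 0) ?_ ?_ ?_ ?_ ?_ ?_ h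
  · intro c; rw [Dt_kk, CC_mm0, CC_rr0, CC_rr0]; simp
  · intro a b; exact P.Dt_tt _ _ _ _ _ _
  · intro a b; exact P.Dt_rr _ _ _ _ _ _
  · simp [Dt, P.CC_one3]
  · intro s t hs ht
    have e : P.Dt g f (s * t) x y = P.Dt g f s x y + P.Dt g f t x y := by
      simp only [Dt, CC_mul3]; abel
    rw [e, hs, ht, add_zero]
  · intro s hs
    have e : P.Dt g f s⁻¹ x y = - P.Dt g f s x y := by
      simp only [Dt, CC_inv3]; abel
    rw [e, hs, neg_zero]

/-- criterion for membership in `K2` -/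
lemma mem_K2 {h : C.H} (hz : ∀ g f w, P.CC g f h w = 0) : (h : G) ∈ C.K2 := by
  apply C.P2
  intro w
  have h1 : C.L (C.hat h w).1 ∈ cen C.K1 := by
    apply C.RAD (C.hat h w).2
    intro g hg f hf
    have := hz ⟨g, hg⟩ ⟨f, hf⟩ w
    rw [CC_l] at this
    exact (P.zero _ (C.comm_D _ _)).1 this
  have e : cj w (h : G) = C.L (C.hat h w).1 * (C.br h w : G) :=
    congrArg (fun z : C.N => (z : G)) (C.cM_i h w)
  rw [e]
  exact mul_mem (mem_sup_left (C.c1 h1)) (mem_sup_right (C.br h w).2)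

include P in
lemma rb_K2 (h : C.H) (y : G) : ((C.rb h y : C.H) : G) ∈ C.K2 := by
  apply P.mem_K2
  intro g f w
  have := P.Dt_zero g f h y w
  rw [Dt] at this
  rw [Cfg.rb, CC_mul3, CC_inv3, CC_br, ← this]; abel

/-- the final auxiliary function -/
noncomputable def Om (c a e b : Q) : E := P.Ph (C.rb (C.kk e) (C.R b)) (C.kk c) (C.R a)

lemma Om_R1 (c a e b : Q) : P.Om c a e b = P.Ph (C.kk c) (C.kk e) (C.R b * C.R a)
    - P.Ph (C.kk c) (C.kk e) (C.R b) - P.Ph (C.kk c) (C.kk e) (C.R a) := by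
  rw [Om, Ph_rb, CC_sg_R, add_zero]

lemma Om_symm (c a e b : Q) : P.Om c a e b = P.Om e a c b := by
  rw [Om_R1, Om_R1, P.Ph_symm (C.kk c), P.Ph_symm (C.kk c), P.Ph_symm (C.kk c)]

lemma Om_cc (c a e b : Q) :
    P.Om c a e b = P.be (C.i (C.rb (C.kk e) (C.R b))) (C.cc c a) := by
  have hK : ((C.i (C.rb (C.kk e) (C.R b)) : C.N) : G) ∈ C.K2 := P.rb_K2 _ _
  rw [Om, Ph, C.cM_kk, be_mul_right, be_mul_right, P.ga_K2_2 hK, P.ga_K2_2 hK, P.be_ii, P.be_ii]
  simp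

lemma Om_anti (c a e b : Q) : P.Om c a e b = - P.Om a c e b := by
  have hK : ((C.i (C.rb (C.kk e) (C.R b)) : C.N) : G) ∈ C.K2 := P.rb_K2 _ _
  rw [Om_cc, Om_cc, C.cc_inv c a, be_inv_right, P.ga_K2_2 hK, add_zero, neg_neg]

lemma Om_neg (c a e b : Q) : P.Om c a e b = - P.Om c a e b := by
  calc P.Om c a e b = - P.Om a c e b := P.Om_anti _ _ _ _
    _ = - P.Om e c a b := by rw [Om_symm]
    _ = P.Om c e a b := by rw [Om_anti, neg_neg]
    _ = P.Om a e c b := by rw [Om_symm]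
    _ = - P.Om e a c b := P.Om_anti _ _ _ _
    _ = - P.Om c a e b := by rw [Om_symm]

lemma Om_12 (c a e b : Q) : P.Om c a e b = P.Om a c e b := by
  rw [Om_anti, ← Om_neg]

lemma Om_Xi (c a e b : Q) :
    P.Om c a e b - P.Om c b e a = P.CC (C.kk c) (C.kk e) (C.kk a) (C.R b) := by
  rw [Om_R1, Om_R1, RR_cc, Ph_N, ga_cc1, CC_mm0, KK]
  abel

lemma Xi_zero (c a e b : Q) : P.CC (C.kk c) (C.kk e) (C.kk a) (C.R b) = 0 := by
  have h14 : ∀ a b c e, P.Om c b e a = P.Om a b e c := by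
    intro a b c e
    have h1 := P.Om_Xi c a e b
    have h2 := P.Om_Xi a c e b
    rw [CC_13, ← h1, ← P.Om_12 c a e b] at h2
    exact (sub_right_inj.1 h2).symm
  rw [← Om_Xi, h14 b a c e, P.Om_12 b a e c, h14 a b c e, sub_self]

/-- the conclusion: `C` vanishes -/
lemma CC_zero (g f h : C.H) (w : G) : P.CC g f h w = 0 := by
  have hpt : ∀ c e a w, P.CC (C.kk c) (C.kk e) (C.kk a) w = 0 := by
    intro c e a w
    rw [← CC_pt]; exact P.Xi_zero _ _ _ _
  have key : ∀ (g f : C.H), (∀ c, P.CC g f (C.kk c) w = 0) → ∀ h, P.CC g f h w = 0 := by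
    intro g f hk h
    refine C.H_ind (p := fun h => P.CC g f h w = 0) hk ?_ ?_ ?_ ?_ ?_ h
    · intro a b; exact P.CC_tt0 _ _ _ _ _
    · intro a b; exact P.CC_rr0 _ _ _ _ _
    · exact P.CC_one3 _ _ _
    · intro s t hs ht; rw [CC_mul3, hs, ht, add_zero]
    · intro s hs; rw [CC_inv3, hs, neg_zero]
  apply key
  intro c
  rw [CC_23]
  revert f
  intro f
  apply key
  intro e
  rw [CC_13]
  apply key
  intro a
  rw [CC_13]
  exact hpt _ _ _ _

include P in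
theorem H_le_K2 : C.H ≤ C.K2 := by
  intro h hh
  exact P.mem_K2 (h := ⟨h, hh⟩) (fun g f w => P.CC_zero g f _ w)

end Ep

end Pool.Agent.W2helper28.AIM
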