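import Pool.Agent.W2helper28.AIM.Main

/-!
The tower of normal subgroups attached to a loop, and the descent.
-/

set_option autoImplicit false

namespace Pool.Agent.W2helper28.AIM

open Subgroup
open scoped commutatorElement

/-- configuration without the tower of normal subgroups -/
structure Pre (G Q : Type*) [Group G] where
  mul : Q → Q → Q
  L : Q → G
  R : Q → G
  H : Subgroup G
  hc : ∀ a ∈ H, ∀ b ∈ H, a * b = b * a
  cov : ∀ g, ∃ a, (L a)⁻¹ * g ∈ H
  th : ∀ a b, (L (mul a b))⁻¹ * (L a * L b) ∈ H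
  rh : ∀ a b, (R (mul a b))⁻¹ * (R b * R a) ∈ H
  ka : ∀ a, (R a)⁻¹ * L a ∈ H
  gen : H ≤ closure ({x | ∃ a, x = (R a)⁻¹ * L a} ∪
      {x | ∃ a b, x = (L (mul a b))⁻¹ * (L a * L b)} ∪
      {x | ∃ a b, x = (R (mul a b))⁻¹ * (R b * R a)})
  P0 : ∀ m : G, (∀ g, cj g m ∈ H) → m = 1

namespace Pre

variable {G Q : Type*} [Group G] (C : Pre G Q)

/-- the opposite configuration -/
def op : Pre G Q where
  mul := fun a b => C.mul b a
  L := C.R
  R := C.L
  H := C.H
  hc := C.hc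
  cov := by
    intro g
    obtain ⟨a, ha⟩ := C.cov g
    refine ⟨a, ?_⟩
    have e : (C.R a)⁻¹ * g = ((C.R a)⁻¹ * C.L a) * ((C.L a)⁻¹ * g) := by group
    rw [e]
    exact C.H.mul_mem (C.ka a) ha
  th := fun a b => C.rh b a
  rh := fun a b => C.th b a
  ka := by
    intro a
    have e : (C.L a)⁻¹ * C.R a = ((C.R a)⁻¹ * C.L a)⁻¹ := by group
    rw [e]
    exact C.H.inv_mem (C.ka a)
  gen := by
    refine le_trans C.gen ?_
    rw [closure_le]
    rintro x ((⟨a, rfl⟩ | ⟨a, b, rfl⟩) | ⟨a, b, rfl⟩)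
    · have e : (C.R a)⁻¹ * C.L a = ((C.L a)⁻¹ * C.R a)⁻¹ := by group
      rw [e]
      exact inv_mem (subset_closure (Or.inl (Or.inl ⟨a, rfl⟩)))
    · exact subset_closure (Or.inr ⟨b, a, rfl⟩)
    · exact subset_closure (Or.inl (Or.inr ⟨b, a, rfl⟩))
  P0 := C.P0

/-- mixed inner map -/
lemma mH (a b : Q) : (C.R b * C.L a)⁻¹ * (C.L a * C.R b) ∈ C.H := by
  have e : (C.R b * C.L a)⁻¹ * (C.L a * C.R b) = ((C.R a)⁻¹ * C.L a)⁻¹ *
      ((C.R (C.mul a b))⁻¹ * (C.R b * C.R a))⁻¹ * ((C.R (C.mul a b))⁻¹ * C.L (C.mul a b)) *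
      ((C.L (C.mul a b))⁻¹ * (C.L a * C.L b)) * ((C.R b)⁻¹ * C.L b)⁻¹ := by group
  rw [e]
  exact mul_mem (mul_mem (mul_mem (mul_mem (inv_mem (C.ka _)) (inv_mem (C.rh _ _))) (C.ka _))
    (C.th _ _)) (inv_mem (C.ka _))

lemma PR {K : Subgroup G} [K.Normal] (hP : PP C.H K) {x : G}
    (h : ∀ a, cj (C.R a) x ∈ K ⊔ C.H) : x ∈ K := by
  apply hP
  intro g
  obtain ⟨a, ha⟩ := C.op.cov g
  have e : g = C.R a * ((C.R a)⁻¹ * g) := by group
  rw [e, ← cj_cj]
  set y := (C.R a)⁻¹ * g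
  have hy : y ∈ K ⊔ C.H := mem_sup_right ha
  rw [cj_def]
  exact mul_mem (mul_mem (inv_mem hy) (h a)) hy

lemma CL {K : Subgroup G} [hK : K.Normal] (hP : PP C.H K) {a : Q}
    (h : C.L a ∈ cen K ⊔ C.H) : C.L a ∈ cen K := by
  obtain ⟨c, hc, y, hy, e⟩ := mem_sup_normal_left.1 h
  suffices hyK : y ∈ K by
    rw [← e]; exact (cen K).mul_mem hc (le_cen K hyK)
  apply C.PR hP
  intro b
  have hy2 : y = c⁻¹ * C.L a := by rw [← e]; group
  have e2 : cj (C.R b) y = (cj (C.R b) c)⁻¹ * c * y *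
      ((C.R b * C.L a)⁻¹ * (C.L a * C.R b)) := by
    rw [hy2]
    simp only [cj]; group
  rw [e2]
  have h1 : (cj (C.R b) c)⁻¹ * c ∈ K := by
    have := inv_mem (cen_cj hc (C.R b))
    simpa using this
  exact mul_mem (mul_mem (mem_sup_left h1) (mem_sup_right hy)) (mem_sup_right (C.mH a b))

lemma CR {K : Subgroup G} [hK : K.Normal] (hP : PP C.H K) {a : Q}
    (h : C.L a ∈ cen K ⊔ C.H) : C.R a ∈ cen K := by
  apply C.op.CL hP
  show C.R a ∈ cen K ⊔ C.H
  have e : C.R a = C.L a * ((C.R a)⁻¹ * C.L a)⁻¹ := by group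
  rw [e]
  exact mul_mem h (mem_sup_right (inv_mem (C.ka a)))

lemma HcK {K : Subgroup G} [hK : K.Normal] (hP : PP C.H K) {x : G} (h : x ∈ C.H)
    (hc : x ∈ cen K) : x ∈ K := by
  apply hP
  intro g
  have e : cj g x = x * (x⁻¹ * cj g x) := by group
  rw [e]
  exact mul_mem (mem_sup_right h) (mem_sup_left (cen_cj hc g))

lemma FIX {K : Subgroup G} [hK : K.Normal] (hP : PP C.H K) {a : Q}
    (h : ∀ f ∈ C.H, (C.L a)⁻¹ * f * C.L a ∈ K ⊔ C.H) : C.L a ∈ cen K := by
  have key : ∀ g : G, (C.R a * g)⁻¹ * (g * C.L a) ∈ K ⊔ C.H := by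
    intro g
    obtain ⟨x, hx⟩ := C.cov g
    set y := (C.L x)⁻¹ * g with hy
    have e : (C.R a * g)⁻¹ * (g * C.L a) = (y⁻¹ * ((C.R x)⁻¹ * C.L x)⁻¹ *
        ((C.R (C.mul x a))⁻¹ * (C.R a * C.R x))⁻¹ * ((C.R (C.mul x a))⁻¹ * C.L (C.mul x a)) *
        ((C.L (C.mul x a))⁻¹ * (C.L x * C.L a))) * ((C.L a)⁻¹ * y * C.L a) := by
      simp only [hy]; group
    rw [e]
    refine mul_mem (mem_sup_right ?_) (h y hx)
    exact mul_mem (mul_mem (mul_mem (mul_mem (inv_mem hx) (inv_mem (C.ka _)))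
      (inv_mem (C.rh _ _))) (C.ka _)) (C.th _ _)
  have hR : C.R a ∈ cen K := by
    intro g
    have e : ⁅C.R a, g⁆ = (C.R a * g) * ((C.R a * g)⁻¹ * (g * C.R a))⁻¹ * (C.R a * g)⁻¹ := by
      simp only [commutatorElement_def]; group
    rw [e]
    refine hK.conj_mem _ (inv_mem (hP _ ?_)) _
    intro z
    have e2 : cj z ((C.R a * g)⁻¹ * (g * C.R a)) =
        ((C.R a * (g * z))⁻¹ * ((g * z) * C.L a)) * ((C.R a * z)⁻¹ * (z * C.L a))⁻¹ := by
      simp only [cj]; group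
    rw [e2]
    exact mul_mem (key _) (inv_mem (key _))
  apply C.op.CR hP
  show C.R a ∈ cen K ⊔ C.H
  exact mem_sup_left hR

/-- the tower, with proofs of normality -/
def KK : ℕ → {K : Subgroup G // K.Normal}
  | 0 => ⟨⊥, inferInstance⟩
  | n + 1 => ⟨((@cen G _ (KK n).1 (KK n).2) ⊔ C.H).normalCore, normalCore_normal _⟩

/-- the tower -/
def K (n : ℕ) : Subgroup G := (C.KK n).1

instance K_normal (n : ℕ) : (C.K n).Normal := (C.KK n).2

lemma K_zero : C.K 0 = ⊥ := rfl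
lemma K_succ (n : ℕ) : C.K (n + 1) = (cen (C.K n) ⊔ C.H).normalCore := rfl

lemma K_succ_le (n : ℕ) : C.K (n + 1) ≤ cen (C.K n) ⊔ C.H := normalCore_le _

lemma cen_le (n : ℕ) : cen (C.K n) ≤ C.K (n + 1) := by
  rw [K_succ, normal_le_normalCore]
  exact le_sup_left

lemma K_mono_succ (n : ℕ) : C.K n ≤ C.K (n + 1) := le_trans (le_cen _) (C.cen_le n)

lemma K_mono {m n : ℕ} (h : m ≤ n) : C.K m ≤ C.K n :=
  monotone_nat_of_le_succ C.K_mono_succ h

lemma K_PP (n : ℕ) : PP C.H (C.K n) := by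
  cases n with
  | zero =>
    intro m hm
    rw [K_zero, Subgroup.mem_bot]
    apply C.P0
    intro g
    have := hm g
    rw [K_zero, bot_sup_eq] at this
    exact this
  | succ n =>
    intro m hm
    rw [K_succ]
    intro g
    have h1 := hm g⁻¹
    have h2 : cj g⁻¹ m = g * m * g⁻¹ := by simp [cj]
    rw [h2] at h1
    have h3 : C.K (n + 1) ⊔ C.H ≤ cen (C.K n) ⊔ C.H :=
      sup_le (C.K_succ_le n) le_sup_right
    exact h3 h1

/-- membership in a mapped subgroup -/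
lemma mem_map_mk {K A : Subgroup G} [K.Normal] (h : K ≤ A) {x : G} :
    (QuotientGroup.mk' K x) ∈ A.map (QuotientGroup.mk' K) ↔ x ∈ A := by
  constructor
  · rintro ⟨y, hy, e⟩
    have h1 : (QuotientGroup.mk' K) (y⁻¹ * x) = 1 := by
      rw [map_mul, map_inv, e, inv_mul_cancel]
    have h2 : y⁻¹ * x ∈ K := by
      rw [← QuotientGroup.eq_one_iff]; exact h1
    have e2 : x = y * (y⁻¹ * x) := by group
    rw [e2]
    exact A.mul_mem hy (h h2)
  · intro hx
    exact ⟨x, hx, rfl⟩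

lemma map_normal {K A : Subgroup G} [K.Normal] [hA : A.Normal] :
    (A.map (QuotientGroup.mk' K)).Normal :=
  hA.map _ (QuotientGroup.mk'_surjective K)

lemma cj_mk {K : Subgroup G} [K.Normal] (g m : G) :
    cj (QuotientGroup.mk' K g) (QuotientGroup.mk' K m) = QuotientGroup.mk' K (cj g m) := by
  simp only [cj, map_mul, map_inv]

lemma PP_map {K A : Subgroup G} [K.Normal] (h : K ≤ A) (hP : PP C.H A) :
    PP (C.H.map (QuotientGroup.mk' K)) (A.map (QuotientGroup.mk' K)) := by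
  intro m hm
  obtain ⟨m, rfl⟩ := QuotientGroup.mk'_surjective K m
  rw [mem_map_mk h]
  apply hP
  intro g
  have h1 := hm (QuotientGroup.mk' K g)
  rw [cj_mk, ← Subgroup.map_sup, mem_map_mk (le_trans h le_sup_left)] at h1
  exact h1

lemma cen_map {K A : Subgroup G} [K.Normal] [hA : A.Normal] (h : K ≤ A)
    [hA' : (A.map (QuotientGroup.mk' K)).Normal] :
    cen (A.map (QuotientGroup.mk' K)) = (cen A).map (QuotientGroup.mk' K) := by
  ext c
  obtain ⟨c, rfl⟩ := QuotientGroup.mk'_surjective K c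
  rw [mem_map_mk (le_trans h (le_cen A)), mem_cen, mem_cen]
  constructor
  · intro hc g
    have := hc (QuotientGroup.mk' K g)
    rw [← map_commutatorElement, mem_map_mk h] at this
    exact this
  · intro hc g
    obtain ⟨g, rfl⟩ := QuotientGroup.mk'_surjective K g
    rw [← map_commutatorElement, mem_map_mk h]
    exact hc g

lemma center_map {K : Subgroup G} [K.Normal] :
    center (G ⧸ K) = (cen K).map (QuotientGroup.mk' K) := by
  ext c
  obtain ⟨c, rfl⟩ := QuotientGroup.mk'_surjective K c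
  rw [mem_map_mk (le_cen K), mem_cen, mem_center_iff]
  constructor
  · intro hc g
    have := hc (QuotientGroup.mk' K g)
    rw [← QuotientGroup.eq_one_iff]
    have e3 : (QuotientGroup.mk ⁅c, g⁆ : G ⧸ K) =
      ⁅QuotientGroup.mk' K c, QuotientGroup.mk' K g⁆ := rfl
    rw [e3, commutatorElement_eq_one_iff_mul_comm]
    exact this.symm
  · intro hc g
    obtain ⟨g, rfl⟩ := QuotientGroup.mk'_surjective K g
    have := hc g
    rw [← QuotientGroup.eq_one_iff] at this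
    have e3 : (QuotientGroup.mk ⁅c, g⁆ : G ⧸ K) =
      ⁅QuotientGroup.mk' K c, QuotientGroup.mk' K g⁆ := rfl
    rw [e3, commutatorElement_eq_one_iff_mul_comm] at this
    exact this.symm

/-- the configuration of the quotient by a term of the tower -/
noncomputable def cfg (j : ℕ) (h : C.H ≤ C.K (j + 3)) : Cfg (G ⧸ C.K j) Q where
  mul := C.mul
  L := fun a => QuotientGroup.mk' (C.K j) (C.L a)
  R := fun a => QuotientGroup.mk' (C.K j) (C.R a)
  H := C.H.map (QuotientGroup.mk' (C.K j))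
  K1 := (C.K (j + 1)).map (QuotientGroup.mk' (C.K j))
  K2 := (C.K (j + 2)).map (QuotientGroup.mk' (C.K j))
  K3 := (C.K (j + 3)).map (QuotientGroup.mk' (C.K j))
  n1 := map_normal
  n2 := map_normal
  n3 := map_normal
  hc := by
    rintro _ ⟨a, ha, rfl⟩ _ ⟨b, hb, rfl⟩
    rw [← map_mul, C.hc a ha b hb, map_mul]
  cov := by
    intro g
    obtain ⟨g, rfl⟩ := QuotientGroup.mk'_surjective (C.K j) g
    obtain ⟨a, ha⟩ := C.cov g
    exact ⟨a, ⟨_, ha, by rw [map_mul, map_inv]⟩⟩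
  th := fun a b => ⟨_, C.th a b, by simp only [map_mul, map_inv]⟩
  rh := fun a b => ⟨_, C.rh a b, by simp only [map_mul, map_inv]⟩
  ka := fun a => ⟨_, C.ka a, by simp only [map_mul, map_inv]⟩
  gen := by
    refine le_trans (Subgroup.map_mono C.gen) ?_
    rw [MonoidHom.map_closure, closure_le]
    rintro _ ⟨x, ((⟨a, rfl⟩ | ⟨a, b, rfl⟩) | ⟨a, b, rfl⟩), rfl⟩
    · exact subset_closure (Or.inl (Or.inl ⟨a, by simp only [map_mul, map_inv]⟩))
    · exact subset_closure (Or.inl (Or.inr ⟨a, b, by simp only [map_mul, map_inv]⟩))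
    · exact subset_closure (Or.inr ⟨a, b, by simp only [map_mul, map_inv]⟩)
  P0 := by
    intro m hm
    have h1 := C.PP_map (K := C.K j) le_rfl (C.K_PP j)
    have h2 : m ∈ (C.K j).map (QuotientGroup.mk' (C.K j)) := by
      apply h1
      intro g
      exact mem_sup_right (hm g)
    rw [QuotientGroup.map_mk'_self, Subgroup.mem_bot] at h2
    exact h2
  P1 := C.PP_map (C.K_mono (by omega)) (C.K_PP _)
  P2 := C.PP_map (C.K_mono (by omega)) (C.K_PP _)
  k1 := by
    rw [center_map, ← Subgroup.map_sup]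
    exact Subgroup.map_mono (C.K_succ_le j)
  k2 := by
    have := cen_map (K := C.K j) (A := C.K (j + 1)) (C.K_mono (by omega)) (hA' := map_normal)
    rw [this, ← Subgroup.map_sup]
    exact Subgroup.map_mono (C.K_succ_le (j + 1))
  k3 := by
    have := cen_map (K := C.K j) (A := C.K (j + 2)) (C.K_mono (by omega)) (hA' := map_normal)
    rw [this, ← Subgroup.map_sup]
    exact Subgroup.map_mono (C.K_succ_le (j + 2))
  hk3 := Subgroup.map_mono h
  c0 := by
    rw [center_map]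
    exact Subgroup.map_mono (C.cen_le j)
  c1 := by
    have := cen_map (K := C.K j) (A := C.K (j + 1)) (C.K_mono (by omega)) (hA' := map_normal)
    rw [this]
    exact Subgroup.map_mono (C.cen_le (j + 1))

lemma step1 {n : ℕ} (h : C.K (n + 1) = ⊤) : C.H ≤ C.K n := by
  have h1 : cen (C.K n) ⊔ C.H = ⊤ := by
    rw [eq_top_iff, ← h]; exact C.K_succ_le n
  have hL : ∀ a, C.L a ∈ cen (C.K n) := fun a => C.CL (C.K_PP n) (by rw [h1]; exact mem_top _)
  have hR : ∀ a, C.R a ∈ cen (C.K n) := fun a => C.CR (C.K_PP n) (by rw [h1]; exact mem_top _)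
  have hH : C.H ≤ cen (C.K n) := by
    refine le_trans C.gen ?_
    rw [closure_le]
    rintro x ((⟨a, rfl⟩ | ⟨a, b, rfl⟩) | ⟨a, b, rfl⟩)
    · exact mul_mem (inv_mem (hR _)) (hL _)
    · exact mul_mem (inv_mem (hL _)) (mul_mem (hL _) (hL _))
    · exact mul_mem (inv_mem (hR _)) (mul_mem (hR _) (hR _))
  intro x hx
  exact C.HcK (C.K_PP n) hx (hH hx)

lemma step2 (j : ℕ) (h : C.H ≤ C.K (j + 3)) : C.H ≤ C.K (j + 2) := by
  have h1 := (C.cfg j h).main
  intro x hx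
  have h2 : QuotientGroup.mk' (C.K j) x ∈ (C.K (j + 2)).map (QuotientGroup.mk' (C.K j)) :=
    h1 ⟨x, hx, rfl⟩
  rwa [mem_map_mk (C.K_mono (by omega))] at h2

lemma step3 {n : ℕ} (h : C.H ≤ C.K n) : C.K (n + 1) = ⊤ := by
  rw [eq_top_iff]
  refine le_trans ?_ (C.cen_le n)
  have hH : ∀ h ∈ C.H, (QuotientGroup.mk h : G ⧸ C.K n) = 1 :=
    fun x hx => (QuotientGroup.eq_one_iff _).2 (h hx)
  have hLR : ∀ a, (QuotientGroup.mk (C.L a) : G ⧸ C.K n) = QuotientGroup.mk (C.R a) := by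
    intro a
    have e : C.L a = C.R a * ((C.R a)⁻¹ * C.L a) := by group
    rw [e, QuotientGroup.mk_mul, hH _ (C.ka a), mul_one]
  intro x _ y
  obtain ⟨a, ha⟩ := C.cov x
  obtain ⟨b, hb⟩ := C.cov y
  have hx : (QuotientGroup.mk x : G ⧸ C.K n) = QuotientGroup.mk (C.L a) := by
    have e : x = C.L a * ((C.L a)⁻¹ * x) := by group
    rw [e, QuotientGroup.mk_mul, hH _ ha, mul_one]
  have hy : (QuotientGroup.mk y : G ⧸ C.K n) = QuotientGroup.mk (C.L b) := by
    have e : y = C.L b * ((C.L b)⁻¹ * y) := by group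
    rw [e, QuotientGroup.mk_mul, hH _ hb, mul_one]
  have h1 : (QuotientGroup.mk (C.L a) : G ⧸ C.K n) * QuotientGroup.mk (C.L b) =
      QuotientGroup.mk (C.L (C.mul a b)) := by
    have e : C.L a * C.L b = C.L (C.mul a b) * ((C.L (C.mul a b))⁻¹ * (C.L a * C.L b)) := by group
    rw [← QuotientGroup.mk_mul, e, QuotientGroup.mk_mul, hH _ (C.th a b), mul_one]
  have h2 : (QuotientGroup.mk (C.R b) : G ⧸ C.K n) * QuotientGroup.mk (C.R a) =
      QuotientGroup.mk (C.R (C.mul a b)) := by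
    have e : C.R b * C.R a = C.R (C.mul a b) * ((C.R (C.mul a b))⁻¹ * (C.R b * C.R a)) := by group
    rw [← QuotientGroup.mk_mul, e, QuotientGroup.mk_mul, hH _ (C.rh a b), mul_one]
  rw [← QuotientGroup.eq_one_iff]
  have e3 : (QuotientGroup.mk ⁅x, y⁆ : G ⧸ C.K n) =
      ⁅(QuotientGroup.mk x : G ⧸ C.K n), (QuotientGroup.mk y : G ⧸ C.K n)⁆ := rfl
  rw [e3, commutatorElement_eq_one_iff_mul_comm, hx, hy, h1, hLR (C.mul a b), ← h2, hLR a, hLR b]

lemma descend (j : ℕ) (h : C.K (j + 4) = ⊤) : C.K (j + 3) = ⊤ :=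
  C.step3 (C.step2 j (C.step1 h))

lemma K3_top {n : ℕ} (h : C.K n = ⊤) : C.K 3 = ⊤ := by
  have key : ∀ j, C.K (j + 3) = ⊤ → C.K 3 = ⊤ := by
    intro j
    induction j with
    | zero => intro h; exact h
    | succ j ih =>
      intro h
      exact ih (C.descend j h)
  apply key n
  rw [eq_top_iff, ← h]
  exact C.K_mono (by omega)

end Pre

end Pool.Agent.W2helper28.AIM
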